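import Pool.Agent.OPR.Defs

/-!
# `𝒪_c(n) = 0` if and only if all `n`-fold products vanish in all algebras with the relation
-/

namespace Pool.Agent.OPR

open Finsupp

variable {F : Type} [Field F]

section Alg

variable {A : Type} [AddCommGroup A] [Module F A]

/-- The product `μ` satisfies the identity `ρ_c`. -/
def Sat (c : Fin 6 → F) (μ : A →ₗ[F] A →ₗ[F] A) : Prop :=
  ∀ a b w : A, μ (μ a b) w = c 0 • μ a (μ b w) + c 1 • μ a (μ w b) + c 2 • μ b (μ a w)
    + c 3 • μ b (μ w a) + c 4 • μ w (μ a b) + c 5 • μ w (μ b a)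

/-- `a` is a product of `n` elements. -/
inductive IsProd (μ : A →ₗ[F] A →ₗ[F] A) : ℕ → A → Prop
  | one (a : A) : IsProd μ 1 a
  | mul (i j : ℕ) (a b : A) : IsProd μ i a → IsProd μ j b → IsProd μ (i + j) (μ a b)

/-- Evaluation of a monomial. -/
def ev (μ : A →ₗ[F] A →ₗ[F] A) (g : ℕ → A) : FreeMagma ℕ → A
  | FreeMagma.of i => g i
  | FreeMagma.mul u v => μ (ev μ g u) (ev μ g v)

lemma ev_mul (μ : A →ₗ[F] A →ₗ[F] A) (g : ℕ → A) (u v : FreeMagma ℕ) :
    ev μ g (u * v) = μ (ev μ g u) (ev μ g v) := rfl

lemma letters_mul (u v : FreeMagma ℕ) : letters (u * v) = letters u ++ letters v := rfl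

lemma ev_congr (μ : A →ₗ[F] A →ₗ[F] A) (g g' : ℕ → A) (w : FreeMagma ℕ)
    (h : ∀ i ∈ letters w, g i = g' i) : ev μ g w = ev μ g' w := by
  induction w with
  | ih1 i => exact h i (by simp [letters])
  | ih2 u v hu hv =>
    change μ (ev μ g u) (ev μ g v) = μ (ev μ g' u) (ev μ g' v)
    rw [hu (fun i hi => h i ?_), hv (fun i hi => h i ?_)]
    · change i ∈ letters u ++ letters v
      exact List.mem_append_right _ hi
    · change i ∈ letters u ++ letters v
      exact List.mem_append_left _ hi

lemma isProd_pos {μ : A →ₗ[F] A →ₗ[F] A} {n : ℕ} {a : A} (h : IsProd μ n a) : 1 ≤ n := by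
  induction h with
  | one a => exact le_rfl
  | mul i j a b _ _ h1 h2 => omega

lemma isProd_word {μ : A →ₗ[F] A →ₗ[F] A} {n : ℕ} {a : A} (h : IsProd μ n a) :
    ∀ k : ℕ, ∃ (w : FreeMagma ℕ) (g : ℕ → A), letters w = List.range' k n ∧ ev μ g w = a := by
  induction h with
  | one a => intro k; exact ⟨FreeMagma.of k, fun _ => a, by simp [letters], rfl⟩
  | mul i j a b _ _ h1 h2 =>
    intro k
    obtain ⟨w1, g1, hw1, he1⟩ := h1 k
    obtain ⟨w2, g2, hw2, he2⟩ := h2 (k + i)
    refine ⟨w1 * w2, fun t => if t < k + i then g1 t else g2 t, ?_, ?_⟩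
    · rw [letters_mul, hw1, hw2, List.range'_append_1]
    · rw [ev_mul]
      congr 1
      · congr 1
        rw [← he1]
        apply ev_congr
        intro t ht
        rw [hw1, List.mem_range'_1] at ht
        exact if_pos ht.2
      · rw [← he2]
        apply ev_congr
        intro t ht
        rw [hw2, List.mem_range'_1] at ht
        exact if_neg (by omega)

lemma isProd_ev (μ : A →ₗ[F] A →ₗ[F] A) (g : ℕ → A) (w : FreeMagma ℕ) :
    IsProd μ (letters w).length (ev μ g w) := by
  induction w with
  | ih1 i => exact IsProd.one _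
  | ih2 u v hu hv =>
    have : (letters (u * v)).length = (letters u).length + (letters v).length := by
      change (letters u ++ letters v).length = _
      simp
    rw [this]
    exact IsProd.mul _ _ _ _ hu hv

lemma isProd_pred {μ : A →ₗ[F] A →ₗ[F] A} {n : ℕ} {a : A} (h : IsProd μ n a) (hn : 2 ≤ n) :
    IsProd μ (n - 1) a := by
  induction h with
  | one a => omega
  | mul i j a b ha hb h1 h2 =>
    by_cases hi : 2 ≤ i
    · have := IsProd.mul (i - 1) j a b (h1 hi) hb
      rwa [show i - 1 + j = i + j - 1 by omega] at this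
    · by_cases hj : 2 ≤ j
      · have := IsProd.mul i (j - 1) a b ha (h2 hj)
        have h3 := isProd_pos ha
        rwa [show i + (j - 1) = i + j - 1 by omega] at this
      · have h3 := isProd_pos ha
        have h4 := isProd_pos hb
        have h5 : i = 1 := by omega
        have h6 : j = 1 := by omega
        subst h5 h6
        exact IsProd.one _

lemma isProd_split {μ : A →ₗ[F] A →ₗ[F] A} {n : ℕ} {a : A} (h : IsProd μ n a) (hn : 2 ≤ n) :
    ∃ (i j : ℕ) (y z : A), 1 ≤ i ∧ 1 ≤ j ∧ i + j = n ∧ IsProd μ i y ∧ IsProd μ j z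
      ∧ a = μ y z := by
  cases h with
  | one a => omega
  | mul i j y z hy hz => exact ⟨i, j, y, z, isProd_pos hy, isProd_pos hz, rfl, hy, hz, rfl⟩

/-- Evaluation of elements of the free algebra. -/
noncomputable def evL (μ : A →ₗ[F] A →ₗ[F] A) (g : ℕ → A) : (FreeMagma ℕ →₀ F) →ₗ[F] A :=
  Finsupp.linearCombination F (ev μ g)

lemma evL_single (μ : A →ₗ[F] A →ₗ[F] A) (g : ℕ → A) (w : FreeMagma ℕ) (t : F) :
    evL μ g (single w t) = t • ev μ g w := by
  simp [evL]

lemma evL_left (μ : A →ₗ[F] A →ₗ[F] A) (g : ℕ → A) (m : FreeMagma ℕ) (f : FreeMagma ℕ →₀ F) :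
    evL μ g (f.mapDomain fun x => m * x) = μ (ev μ g m) (evL μ g f) := by
  induction f using Finsupp.induction_linear with
  | zero => simp
  | add f1 f2 h1 h2 => rw [Finsupp.mapDomain_add, map_add, map_add, map_add, h1, h2]
  | single w t =>
    rw [Finsupp.mapDomain_single, evL_single, evL_single, ev_mul, map_smul]

lemma evL_right (μ : A →ₗ[F] A →ₗ[F] A) (g : ℕ → A) (m : FreeMagma ℕ) (f : FreeMagma ℕ →₀ F) :
    evL μ g (f.mapDomain fun x => x * m) = μ (evL μ g f) (ev μ g m) := by
  induction f using Finsupp.induction_linear with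
  | zero => simp
  | add f1 f2 h1 h2 =>
    rw [Finsupp.mapDomain_add, map_add, map_add, map_add, LinearMap.add_apply, h1, h2]
  | single w t =>
    rw [Finsupp.mapDomain_single, evL_single, evL_single, ev_mul, map_smul,
      LinearMap.smul_apply]

lemma evL_cons {c : Fin 6 → F} {μ : A →ₗ[F] A →ₗ[F] A} (h : Sat c μ) (g : ℕ → A)
    {f : FreeMagma ℕ →₀ F} (hf : Consequence c f) : evL μ g f = 0 := by
  induction hf with
  | rel u v w =>
    simp only [rho, map_sub, map_smul, evL_single, ev_mul, one_smul]
    rw [h]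
    module
  | left m f _ h1 => rw [evL_left, h1, map_zero]
  | right m f _ h1 => rw [evL_right, h1, map_zero, LinearMap.zero_apply]

end Alg

/-- All `n`-fold products vanish in all algebras with the relation. -/
def Van (c : Fin 6 → F) (n : ℕ) : Prop :=
  ∀ (A : Type) [AddCommGroup A] [Module F A] (μ : A →ₗ[F] A →ₗ[F] A), Sat c μ →
    ∀ a : A, IsProd μ n a → a = 0

lemma van_of_eq {c : Fin 6 → F} {n : ℕ} (h : OpIdeal c n = Tens F n) : Van c n := by
  intro A _ _ μ hμ a ha
  obtain ⟨w, g, hw, he⟩ := isProd_word ha 0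
  have h1 : single w (1 : F) ∈ OpIdeal c n := by
    rw [h]
    refine Submodule.subset_span ⟨w, ?_, rfl⟩
    rw [hw, List.range_eq_range']
  have h2 : OpIdeal c n ≤ LinearMap.ker (evL μ g) := by
    unfold OpIdeal
    rw [Submodule.span_le]
    rintro f ⟨hf, -⟩
    exact evL_cons hμ g hf
  have h3 := h2 h1
  rw [LinearMap.mem_ker, evL_single, one_smul, he] at h3
  exact h3

lemma van_succ {c : Fin 6 → F} {n : ℕ} (hn : 1 ≤ n) (h : Van c n) : Van c (n + 1) := by
  intro A _ _ μ hμ a ha
  exact h A μ hμ a (isProd_pred ha (by omega))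

lemma van_mono {c : Fin 6 → F} {n m : ℕ} (hn : 1 ≤ n) (hm : n ≤ m) (h : Van c n) : Van c m := by
  induction m, hm using Nat.le_induction with
  | base => exact h
  | succ k hk ih => exact van_succ (by omega) ih

/-! ### The free algebra modulo the relation -/

/-- Multiplication of the free algebra. -/
noncomputable def mulM : (FreeMagma ℕ →₀ F) →ₗ[F] (FreeMagma ℕ →₀ F) →ₗ[F] (FreeMagma ℕ →₀ F) :=
  Finsupp.linearCombination F fun u : FreeMagma ℕ =>
    (Finsupp.lmapDomain F F (fun x => u * x))

lemma mulM_single_left (u : FreeMagma ℕ) (s : F) (g : FreeMagma ℕ →₀ F) :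
    mulM (single u s) g = s • g.mapDomain fun x => u * x := by
  simp [mulM]

lemma mulM_single (u v : FreeMagma ℕ) (s t : F) :
    mulM (single u s) (single v t) = single (u * v) (s * t) := by
  rw [mulM_single_left, Finsupp.mapDomain_single, Finsupp.smul_single, smul_eq_mul]

lemma mulM_single_right (v : FreeMagma ℕ) (t : F) (f : FreeMagma ℕ →₀ F) :
    mulM f (single v t) = t • f.mapDomain fun x => x * v := by
  induction f using Finsupp.induction_linear with
  | zero => simp
  | add f1 f2 h1 h2 =>
    rw [map_add, LinearMap.add_apply, h1, h2, Finsupp.mapDomain_add, smul_add]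
  | single w s =>
    rw [mulM_single, Finsupp.mapDomain_single, Finsupp.smul_single, smul_eq_mul, mul_comm]

/-- All consequences of the relation. -/
noncomputable def Jall (c : Fin 6 → F) : Submodule F (FreeMagma ℕ →₀ F) :=
  Submodule.span F {f | Consequence c f}

lemma jall_left {c : Fin 6 → F} (f g : FreeMagma ℕ →₀ F) (hg : g ∈ Jall c) :
    mulM f g ∈ Jall c := by
  induction f using Finsupp.induction_linear with
  | zero => simp
  | add f1 f2 h1 h2 =>
    rw [map_add, LinearMap.add_apply]
    exact Submodule.add_mem _ h1 h2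
  | single u s =>
    rw [mulM_single_left]
    refine Submodule.smul_mem _ _ ?_
    refine Submodule.span_induction (p := fun g _ => (g.mapDomain fun x => u * x) ∈ Jall c)
      ?_ ?_ ?_ ?_ hg
    · intro x hx
      exact Submodule.subset_span (Consequence.left u x hx)
    · simp
    · intro x y _ _ hx hy
      rw [Finsupp.mapDomain_add]
      exact Submodule.add_mem _ hx hy
    · intro t x _ hx
      rw [Finsupp.mapDomain_smul]
      exact Submodule.smul_mem _ _ hx

lemma jall_right {c : Fin 6 → F} (f g : FreeMagma ℕ →₀ F) (hf : f ∈ Jall c) :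
    mulM f g ∈ Jall c := by
  induction g using Finsupp.induction_linear with
  | zero => simp
  | add f1 f2 h1 h2 =>
    rw [map_add]
    exact Submodule.add_mem _ h1 h2
  | single u s =>
    rw [mulM_single_right]
    refine Submodule.smul_mem _ _ ?_
    refine Submodule.span_induction (p := fun g _ => (g.mapDomain fun x => x * u) ∈ Jall c)
      ?_ ?_ ?_ ?_ hf
    · intro x hx
      exact Submodule.subset_span (Consequence.right u x hx)
    · simp
    · intro x y _ _ hx hy
      rw [Finsupp.mapDomain_add]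
      exact Submodule.add_mem _ hx hy
    · intro t x _ hx
      rw [Finsupp.mapDomain_smul]
      exact Submodule.smul_mem _ _ hx

/-- The product, with values in the quotient. -/
noncomputable def mulB (c : Fin 6 → F) :
    (FreeMagma ℕ →₀ F) →ₗ[F] (FreeMagma ℕ →₀ F) →ₗ[F] ((FreeMagma ℕ →₀ F) ⧸ Jall c) :=
  mulM.compr₂ (Jall c).mkQ

lemma mulB_ker1 (c : Fin 6 → F) : Jall c ≤ LinearMap.ker (mulB c).flip := by
  intro g hg
  rw [LinearMap.mem_ker]
  ext1
  ext1
  simp only [mulB, LinearMap.coe_comp, Function.comp_apply, LinearMap.flip_apply,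
    LinearMap.compr₂_apply, Submodule.mkQ_apply, LinearMap.zero_apply]
  rw [Submodule.Quotient.mk_eq_zero]
  exact jall_left _ _ hg

/-- The product, the second factor taken in the quotient. -/
noncomputable def mulC (c : Fin 6 → F) :
    (FreeMagma ℕ →₀ F) →ₗ[F] ((FreeMagma ℕ →₀ F) ⧸ Jall c) →ₗ[F]
      ((FreeMagma ℕ →₀ F) ⧸ Jall c) :=
  ((Jall c).liftQ (mulB c).flip (mulB_ker1 c)).flip

lemma mulC_mk (c : Fin 6 → F) (f g : FreeMagma ℕ →₀ F) :
    mulC c f ((Jall c).mkQ g) = (Jall c).mkQ (mulM f g) := rfl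

lemma mulC_ker (c : Fin 6 → F) : Jall c ≤ LinearMap.ker (mulC c) := by
  intro f hf
  rw [LinearMap.mem_ker]
  apply LinearMap.ext
  intro y
  obtain ⟨g, rfl⟩ := (Jall c).mkQ_surjective y
  rw [mulC_mk, LinearMap.zero_apply, Submodule.mkQ_apply, Submodule.Quotient.mk_eq_zero]
  exact jall_right _ _ hf

/-- The product of the quotient. -/
noncomputable def mulQ (c : Fin 6 → F) :
    ((FreeMagma ℕ →₀ F) ⧸ Jall c) →ₗ[F] ((FreeMagma ℕ →₀ F) ⧸ Jall c) →ₗ[F]
      ((FreeMagma ℕ →₀ F) ⧸ Jall c) :=
  (Jall c).liftQ (mulC c) (mulC_ker c)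

lemma mulQ_mk (c : Fin 6 → F) (f g : FreeMagma ℕ →₀ F) :
    mulQ c ((Jall c).mkQ f) ((Jall c).mkQ g) = (Jall c).mkQ (mulM f g) := rfl

lemma rel_mem (c : Fin 6 → F) (f g h : FreeMagma ℕ →₀ F) :
    mulM (mulM f g) h - c 0 • mulM f (mulM g h) - c 1 • mulM f (mulM h g)
      - c 2 • mulM g (mulM f h) - c 3 • mulM g (mulM h f) - c 4 • mulM h (mulM f g)
      - c 5 • mulM h (mulM g f) ∈ Jall c := by
  induction f using Finsupp.induction_linear with
  | zero => simp
  | add f1 f2 h1 h2 =>
    have := Submodule.add_mem _ h1 h2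
    refine (congrArg (· ∈ Jall c) ?_).mp this
    simp only [map_add, LinearMap.add_apply]
    module
  | single u r =>
    induction g using Finsupp.induction_linear with
    | zero => simp
    | add f1 f2 h1 h2 =>
      have := Submodule.add_mem _ h1 h2
      refine (congrArg (· ∈ Jall c) ?_).mp this
      simp only [map_add, LinearMap.add_apply]
      module
    | single v s =>
      induction h using Finsupp.induction_linear with
      | zero => simp
      | add f1 f2 h1 h2 =>
        have := Submodule.add_mem _ h1 h2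
        refine (congrArg (· ∈ Jall c) ?_).mp this
        simp only [map_add, LinearMap.add_apply]
        module
      | single w t =>
        have h1 : rho c u v w ∈ Jall c := Submodule.subset_span (Consequence.rel u v w)
        have h2 := Submodule.smul_mem _ (r * s * t) h1
        refine (congrArg (· ∈ Jall c) ?_).mp h2
        simp only [rho, mulM_single, smul_sub, Finsupp.smul_single, smul_eq_mul]
        congr 1 <;> try ring_nf

lemma sat_mulQ (c : Fin 6 → F) : Sat c (mulQ c) := by
  intro a b w
  obtain ⟨f, rfl⟩ := (Jall c).mkQ_surjective a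
  obtain ⟨g, rfl⟩ := (Jall c).mkQ_surjective b
  obtain ⟨h, rfl⟩ := (Jall c).mkQ_surjective w
  simp only [mulQ_mk, ← map_smul, ← map_add]
  rw [← sub_eq_zero, ← map_sub, Submodule.mkQ_apply, Submodule.Quotient.mk_eq_zero]
  refine (congrArg (· ∈ Jall c) ?_).mp (rel_mem c f g h)
  simp only [map_smul, map_add]
  module

lemma ev_mulQ (c : Fin 6 → F) (w : FreeMagma ℕ) :
    ev (mulQ c) (fun i => (Jall c).mkQ (single (FreeMagma.of i) 1)) w
      = (Jall c).mkQ (single w 1) := by
  induction w with
  | ih1 i => rfl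
  | ih2 u v hu hv =>
    change mulQ c (ev (mulQ c) _ u) (ev (mulQ c) _ v) = _
    rw [hu, hv, mulQ_mk, mulM_single, mul_one]

lemma cons_supp {c : Fin 6 → F} {f : FreeMagma ℕ →₀ F} (hf : Consequence c f) :
    ∃ s : Multiset ℕ, f ∈ Finsupp.supported F F {m | (letters m : Multiset ℕ) = s} := by
  induction hf with
  | rel u v w =>
    refine ⟨(letters u : Multiset ℕ) + letters v + letters w, ?_⟩
    unfold rho
    have key : ∀ m : FreeMagma ℕ, (letters m : Multiset ℕ)
        = (letters u : Multiset ℕ) + letters v + letters w →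
        (single m (1 : F)) ∈ Finsupp.supported F F
          {m | (letters m : Multiset ℕ) = (letters u : Multiset ℕ) + letters v + letters w} := by
      intro m hm
      exact Finsupp.single_mem_supported F _ hm
    refine Submodule.sub_mem _ (Submodule.sub_mem _ (Submodule.sub_mem _ (Submodule.sub_mem _
      (Submodule.sub_mem _ (Submodule.sub_mem _ (key _ ?_) (Submodule.smul_mem _ _ (key _ ?_)))
      (Submodule.smul_mem _ _ (key _ ?_))) (Submodule.smul_mem _ _ (key _ ?_)))
      (Submodule.smul_mem _ _ (key _ ?_))) (Submodule.smul_mem _ _ (key _ ?_)))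
      (Submodule.smul_mem _ _ (key _ ?_)) <;>
    simp only [letters_mul, ← Multiset.coe_add] <;> abel
  | left m f _ h =>
    obtain ⟨s, hs⟩ := h
    refine ⟨(letters m : Multiset ℕ) + s, ?_⟩
    rw [Finsupp.mem_supported] at hs ⊢
    intro x hx
    have h1 := Finsupp.mapDomain_support hx
    rw [Finset.mem_image] at h1
    obtain ⟨y, hy, rfl⟩ := h1
    have h2 : (letters y : Multiset ℕ) = s := hs hy
    change (letters (m * y) : Multiset ℕ) = _
    rw [letters_mul, ← Multiset.coe_add, h2]
  | right m f _ h =>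
    obtain ⟨s, hs⟩ := h
    refine ⟨s + (letters m : Multiset ℕ), ?_⟩
    rw [Finsupp.mem_supported] at hs ⊢
    intro x hx
    have h1 := Finsupp.mapDomain_support hx
    rw [Finset.mem_image] at h1
    obtain ⟨y, hy, rfl⟩ := h1
    have h2 : (letters y : Multiset ℕ) = s := hs hy
    change (letters (y * m) : Multiset ℕ) = _
    rw [letters_mul, ← Multiset.coe_add, h2]

open Classical in
lemma filter_mem {c : Fin 6 → F} (n : ℕ) {f : FreeMagma ℕ →₀ F} (hf : f ∈ Jall c) :
    f.filter (fun m => (letters m).Perm (List.range n)) ∈ OpIdeal c n := by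
  refine Submodule.span_induction
    (p := fun f _ => f.filter (fun m => (letters m).Perm (List.range n)) ∈ OpIdeal c n)
    ?_ ?_ ?_ ?_ hf
  · intro x hx
    obtain ⟨s, hs⟩ := cons_supp hx
    rw [Finsupp.mem_supported] at hs
    by_cases h : s = ((List.range n : List ℕ) : Multiset ℕ)
    · have h1 : ∀ m ∈ x.support, (letters m).Perm (List.range n) := by
        intro m hm
        have h2 : (letters m : Multiset ℕ) = s := hs hm
        rw [h] at h2
        exact Multiset.coe_eq_coe.mp h2
      have h3 : x.filter (fun m => (letters m).Perm (List.range n)) = x := by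
        rw [Finsupp.filter_eq_self_iff]
        intro m hm
        exact h1 m (Finsupp.mem_support_iff.mpr hm)
      rw [h3]
      refine Submodule.subset_span ⟨hx, ?_⟩
      rw [← Finsupp.sum_single x]
      refine Submodule.sum_mem _ fun m hm => ?_
      have h4 : single m (x m) = x m • single m (1 : F) := by
        rw [Finsupp.smul_single, smul_eq_mul, mul_one]
      rw [h4]
      exact Submodule.smul_mem _ _ (Submodule.subset_span ⟨m, h1 m hm, rfl⟩)
    · have h3 : x.filter (fun m => (letters m).Perm (List.range n)) = 0 := by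
        rw [Finsupp.filter_eq_zero_iff]
        intro m hm
        by_contra h5
        have h2 : (letters m : Multiset ℕ) = s := hs (Finsupp.mem_support_iff.mpr h5)
        exact h (h2 ▸ Multiset.coe_eq_coe.mpr hm)
      rw [h3]
      exact Submodule.zero_mem _
  · rw [Finsupp.filter_zero]
    exact Submodule.zero_mem _
  · intro x y _ _ hx hy
    rw [Finsupp.filter_add]
    exact Submodule.add_mem _ hx hy
  · intro t x _ hx
    rw [Finsupp.filter_smul]
    exact Submodule.smul_mem _ _ hx

lemma ideal_le (c : Fin 6 → F) (n : ℕ) : OpIdeal c n ≤ Tens F n := by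
  unfold OpIdeal
  rw [Submodule.span_le]
  rintro f ⟨-, hf⟩
  exact hf

theorem eq_iff_van (c : Fin 6 → F) (n : ℕ) : OpIdeal c n = Tens F n ↔ Van c n := by
  classical
  refine ⟨van_of_eq, fun h => le_antisymm (ideal_le c n) ?_⟩
  unfold Tens
  rw [Submodule.span_le]
  rintro f ⟨w, hw, rfl⟩
  have h1 := h _ (mulQ c) (sat_mulQ c) _
    (by
      have := isProd_ev (mulQ c) (fun i => (Jall c).mkQ (single (FreeMagma.of i) 1)) w
      rwa [hw.length_eq, List.length_range] at this)
  rw [ev_mulQ, Submodule.mkQ_apply, Submodule.Quotient.mk_eq_zero] at h1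
  have h2 := filter_mem n h1
  have h3 : (single w (1 : F)).filter (fun m => (letters m).Perm (List.range n))
      = single w (1 : F) := by
    rw [Finsupp.filter_eq_self_iff]
    intro m hm
    have h4 : m = w := by
      by_contra h5
      exact hm (Finsupp.single_eq_of_ne (by tauto))
    rw [h4]
    exact hw
  rw [h3] at h2
  exact h2

theorem index_iff {c : Fin 6 → F} {N : ℕ} (hN : 1 ≤ N) (h1 : ¬ Van c N) (h2 : Van c (N + 1))
    (d : ℕ) : NilpotentOfIndex c d ↔ d = N := by
  unfold NilpotentOfIndex
  rw [eq_iff_van, Ne, eq_iff_van]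
  constructor
  · rintro ⟨h3, h4⟩
    rcases lt_trichotomy d N with h | h | h
    · exact absurd (van_mono (by omega) (by omega) h4) h1
    · exact h
    · exact absurd (van_mono (by omega) (by omega) h2) h3
  · rintro rfl
    exact ⟨h1, h2⟩

theorem index_none {c : Fin 6 → F} (h : ∀ n, 1 ≤ n → ¬ Van c n) (d : ℕ) :
    ¬ NilpotentOfIndex c d := by
  rintro ⟨-, h2⟩
  rw [eq_iff_van] at h2
  exact h (d + 1) (by omega) h2

end Pool.Agent.OPR
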