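import Mathlib

/-!
# Parametrized one-relation operads: definitions

Monomials are elements of the free magma on the letters `0, 1, 2, ...`; `Tens F n` is the span
of the monomials in which each of the letters `0, ..., n - 1` occurs exactly once, and
`Ideal c n` is the span of those elements of `Tens F n` which are consequences of the relation.
-/

namespace Pool.Agent.OPR

open Finsupp

/-- The letters of a monomial, from left to right. -/
def letters : FreeMagma ℕ → List ℕ
  | FreeMagma.of i => [i]
  | FreeMagma.mul u v => letters u ++ letters v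

/-- The relation `ρ_c`, evaluated at three monomials:
`(uv)w - c_1 u(vw) - c_2 u(wv) - c_3 v(uw) - c_4 v(wu) - c_5 w(uv) - c_6 w(vu)`
(`c_i` is `c (i - 1)`). -/
noncomputable def rho {F : Type} [Field F] (c : Fin 6 → F) (u v w : FreeMagma ℕ) :
    FreeMagma ℕ →₀ F :=
  single ((u * v) * w) 1 - c 0 • single (u * (v * w)) 1 - c 1 • single (u * (w * v)) 1
    - c 2 • single (v * (u * w)) 1 - c 3 • single (v * (w * u)) 1
    - c 4 • single (w * (u * v)) 1 - c 5 • single (w * (v * u)) 1

/-- The consequences of the relation: the elements `ρ_c(u, v, w)`, closed under multiplication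
by monomials from the left and from the right. -/
inductive Consequence {F : Type} [Field F] (c : Fin 6 → F) : (FreeMagma ℕ →₀ F) → Prop
  | rel (u v w : FreeMagma ℕ) : Consequence c (rho c u v w)
  | left (m : FreeMagma ℕ) (f : FreeMagma ℕ →₀ F) :
      Consequence c f → Consequence c (f.mapDomain fun x => m * x)
  | right (m : FreeMagma ℕ) (f : FreeMagma ℕ →₀ F) :
      Consequence c f → Consequence c (f.mapDomain fun x => x * m)

/-- `𝒯(n)`: the span of the multilinear monomials in the letters `0, ..., n - 1`. -/
noncomputable def Tens (F : Type) [Field F] (n : ℕ) : Submodule F (FreeMagma ℕ →₀ F) :=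
  Submodule.span F {f | ∃ w : FreeMagma ℕ, (letters w).Perm (List.range n) ∧ f = single w 1}

/-- `𝒥_c(n)`: the `n`-th component of the operad ideal generated by `ρ_c`. -/
noncomputable def OpIdeal {F : Type} [Field F] (c : Fin 6 → F) (n : ℕ) : Submodule F (FreeMagma ℕ →₀ F) :=
  Submodule.span F {f | Consequence c f ∧ f ∈ Tens F n}

/-- `𝒪_c` is nilpotent of index `d`: `𝒥_c(d) ≠ 𝒯(d)` and `𝒥_c(d+1) = 𝒯(d+1)`. -/
def NilpotentOfIndex {F : Type} [Field F] (c : Fin 6 → F) (d : ℕ) : Prop :=
  OpIdeal c d ≠ Tens F d ∧ OpIdeal c (d + 1) = Tens F (d + 1)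

end Pool.Agent.OPR
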