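import Pool.Agent.OPR.FirstBase

/-!
# Associative algebras with an identity of degree three
-/

namespace Pool.Agent.OPR

variable {F : Type} [Field F] {B : Type} [AddCommGroup B] [Module F B]
  {o : B →ₗ[F] B →ₗ[F] B}

lemma smul_cancel {r : F} {u : B} (h : r • u = 0) (hr : r ≠ 0) : u = 0 :=
  (smul_eq_zero.mp h).resolve_left hr

/-- `ab c + ba c = 0` implies that all words of length four vanish. -/
lemma as_one [CharZero F] (ho : ∀ a b c : B, o (o a b) c = o a (o b c))
    (hU : ∀ a b c : B, o a (o b c) + o b (o a c) = 0) (x y z w : B) :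
    o x (o y (o z w)) = 0 := by
  have e1 := hU x (o y z) w
  have e2 := congrArg (o y) (hU z x w)
  have e3 := hU y x (o z w)
  simp only [ho, map_add, map_zero] at e1 e2 e3
  have h : (2 : F) • o x (o y (o z w)) = 0 := by
    linear_combination (norm := module) e1 - e2 + e3
  exact smul_cancel h two_ne_zero

/-- `c ab + c ba = 0` implies that all words of length four vanish. -/
lemma as_two [CharZero F] (ho : ∀ a b c : B, o (o a b) c = o a (o b c))
    (hW : ∀ a b c : B, o c (o a b) + o c (o b a) = 0) (w x y z : B) :
    o w (o x (o y z)) = 0 := by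
  have e1 := hW x (o y z) w
  have e2 := hW z x (o w y)
  have e3 := congrArg (fun t => o t z) (hW y x w)
  simp only [ho, map_add, map_zero, LinearMap.add_apply, LinearMap.zero_apply] at e1 e2 e3
  have h : (2 : F) • o w (o x (o y z)) = 0 := by
    linear_combination (norm := module) e1 - e2 + e3
  exact smul_cancel h two_ne_zero

/-- `c {a, b} = k {a, b} c` with `k ≠ 0, 1, -1`. -/
lemma as_three [CharZero F] (ho : ∀ a b c : B, o (o a b) c = o a (o b c)) {k : F}
    (hk0 : k ≠ 0) (hk1 : k ≠ 1) (hk2 : k ≠ -1)
    (hk : ∀ a b c : B, o c (o a b) + o c (o b a) = k • (o a (o b c) + o b (o a c)))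
    (a b c d : B) : o a (o b (o c d)) = 0 := by
  have p1 : ∀ a b c d : B, o a (o b (o c d)) + o b (o a (o c d)) = 0 := by
    intro a b c d
    have h1 := hk a b (o c d)
    have h2 := congrArg (o c) (hk a b d)
    have h3 := congrArg (fun t => o t d) (hk a b c)
    simp only [ho, map_add, map_smul, LinearMap.add_apply, LinearMap.smul_apply] at h1 h2 h3
    have h : (k * (1 - k)) • (o a (o b (o c d)) + o b (o a (o c d))) = 0 := by
      linear_combination (norm := module) -h1 + h2 + k • h3
    exact smul_cancel h (mul_ne_zero hk0 (sub_ne_zero.mpr (Ne.symm hk1)))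
  have p2 : ∀ a b c d : B, o c (o a (o b d)) + o c (o b (o a d)) = 0 := by
    intro a b c d
    have h3 := congrArg (fun t => o t d) (hk a b c)
    simp only [ho, map_add, map_smul, LinearMap.add_apply, LinearMap.smul_apply] at h3
    rw [h3, p1, smul_zero]
  have p3 : ∀ a b c d : B, o c (o d (o a b)) + o c (o d (o b a)) = 0 := by
    intro a b c d
    have h1 := hk a b (o c d)
    simp only [ho] at h1
    rw [h1, p1, smul_zero]
  have h4 := hk a (o c d) b
  simp only [ho] at h4
  have b1 : o b (o a (o c d)) = -o a (o b (o c d)) :=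
    eq_neg_of_add_eq_zero_right (p1 a b c d)
  have b2 : o b (o c (o d a)) = -o b (o c (o a d)) :=
    eq_neg_of_add_eq_zero_right (p3 a d b c)
  have b3 : o b (o c (o a d)) = -o b (o a (o c d)) :=
    eq_neg_of_add_eq_zero_right (p2 a c b d)
  have b4 : o a (o c (o d b)) = -o a (o c (o b d)) :=
    eq_neg_of_add_eq_zero_right (p3 b d a c)
  have b5 : o a (o c (o b d)) = -o a (o b (o c d)) :=
    eq_neg_of_add_eq_zero_right (p2 b c a d)
  have b6 : o c (o d (o a b)) = -o c (o a (o d b)) :=
    eq_neg_of_add_eq_zero_right (p2 a d c b)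
  have b7 : o c (o a (o d b)) = -o a (o c (o d b)) :=
    eq_neg_of_add_eq_zero_right (p1 a c d b)
  rw [b2, b3, b6, b7, b4, b5, b1] at h4
  have h : (2 * (1 + k)) • o a (o b (o c d)) = 0 := by
    linear_combination (norm := module) -h4
  refine smul_cancel h (mul_ne_zero two_ne_zero ?_)
  intro h5
  exact hk2 (by linear_combination h5)

/-- `{a, b}` central, the standard identity and `x³ = 0`. -/
lemma as_four [CharZero F] (ho : ∀ a b c : B, o (o a b) c = o a (o b c))
    (hC : ∀ a b c : B, o a (o b c) + o b (o a c) = o c (o a b) + o c (o b a))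
    (hs : ∀ a b c : B, o a (o b c) - o a (o c b) - o b (o a c) + o b (o c a) + o c (o a b)
      - o c (o b a) = 0)
    (hn : ∀ a b c : B, o a (o b c) + o a (o c b) + o b (o a c) + o b (o c a) + o c (o a b)
      + o c (o b a) = 0) (x y z w : B) : o x (o y (o z w)) = 0 := by
  have ht : ∀ x y z : B, o x (o y z) - o y (o x z) + o z (o x y) - o z (o y x) = 0 := by
    intro x y z
    have h1 := hs x y z
    have h2 := hC x z y
    have h3 := hC y z x
    have h : (3 : F) • (o x (o y z) - o y (o x z) + o z (o x y) - o z (o y x)) = 0 := by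
      linear_combination (norm := module) (2 : F) • h1 + h2 - h3
    exact smul_cancel h three_ne_zero
  have a3 : ∀ x y z w : B, o z (o w (o x y)) = o z (o w (o y x)) := by
    intro x y z w
    have h1 := ht x y (o z w)
    have h2 := congrArg (fun t => o t w) (ht x y z)
    have h3 := congrArg (o z) (ht x y w)
    simp only [ho, map_add, map_sub, map_zero, LinearMap.add_apply, LinearMap.sub_apply,
      LinearMap.zero_apply] at h1 h2 h3
    have h : (2 : F) • (o z (o w (o x y)) - o z (o w (o y x))) = 0 := by
      linear_combination (norm := module) h1 - h2 + h3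
    exact sub_eq_zero.mp (smul_cancel h two_ne_zero)
  have a2 : ∀ x y z w : B, o z (o x (o y w)) = o z (o y (o x w)) := by
    intro x y z w
    have h3 := congrArg (o z) (ht x y w)
    simp only [map_add, map_sub, map_zero] at h3
    rw [← sub_eq_zero]
    linear_combination (norm := module) h3 - a3 x y z w
  have a1 : ∀ x y z w : B, o x (o y (o z w)) = o y (o x (o z w)) := by
    intro x y z w
    have h2 := congrArg (fun t => o t w) (ht x y z)
    simp only [ho, map_add, map_sub, map_zero, LinearMap.add_apply, LinearMap.sub_apply,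
      LinearMap.zero_apply] at h2
    rw [← sub_eq_zero]
    linear_combination (norm := module) h2 - a2 x y z w
  have h := congrArg (fun t => o t w) (hn x y z)
  simp only [ho, map_add, map_zero, LinearMap.add_apply, LinearMap.zero_apply] at h
  have h6 : (6 : F) • o x (o y (o z w)) = 0 := by
    linear_combination (norm := module) h + a2 y z x w + a1 x y z w
      + a2 x z y w + a1 x y z w + a1 x z y w + a2 y z x w
      + a2 x y z w + a1 x z y w + a2 y z x w
  exact smul_cancel h6 (by norm_num)

/-- The consequences of the identity for the three words `{a,b}c`, `acb + bca`, `c{a,b}`. -/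
lemma as_rows {α β : F} (hT : (α - β) * (α - β - 1) ≠ 0)
    (hz : ∀ a b c : B, (α ^ 2 - α) • o a (o b c) - (α * β) • o b (o a c)
      - (α * β) • o c (o a b) + β ^ 2 • o c (o b a) + β • o b (o c a) = 0) :
    (∀ a b c : B, o a (o b c) + o a (o c b) + o b (o a c) + o b (o c a) + o c (o a b)
      + o c (o b a) = 0) ∧
    (∀ a b c : B, (α ^ 2 - α - α * β - β) • (o a (o b c) + o b (o a c))
      + (β ^ 2 - α * β - β) • (o c (o a b) + o c (o b a)) = 0) ∧
    (∀ a b c : B, (β ^ 2 + β + 2 * α * β) • (o a (o b c) + o b (o a c))
      + (α ^ 2 - α + 2 * α * β) • (o c (o a b) + o c (o b a)) = 0) := by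
  have h0 : ∀ a b c : B, o a (o b c) + o a (o c b) + o b (o a c) + o b (o c a) + o c (o a b)
      + o c (o b a) = 0 := by
    intro a b c
    refine smul_cancel (r := (α - β) * (α - β - 1)) ?_ hT
    linear_combination (norm := module) hz a b c + hz a c b + hz b a c + hz b c a + hz c a b
      + hz c b a
  refine ⟨h0, ?_, ?_⟩
  · intro a b c
    linear_combination (norm := module) hz a b c + hz b a c - β • h0 a b c
  · intro a b c
    linear_combination (norm := module) hz c a b + hz c b a + (2 * α * β) • h0 a b c

lemma as_pair [CharZero F] (ho : ∀ a b c : B, o (o a b) c = o a (o b c)) {p q : F}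
    (hpq : p ^ 2 ≠ q ^ 2)
    (h : ∀ a b c : B, p • (o a (o b c) + o b (o a c)) + q • (o c (o a b) + o c (o b a)) = 0)
    (a b c d : B) : o a (o b (o c d)) = 0 := by
  by_cases hq : q = 0
  · have hp : p ≠ 0 := by
      intro hp
      exact hpq (by rw [hp, hq])
    refine as_one ho ?_ a b c d
    intro a b c
    have h1 := h a b c
    rw [hq, zero_smul, add_zero] at h1
    exact smul_cancel h1 hp
  · by_cases hp : p = 0
    · refine as_two ho ?_ a b c d
      intro a b c
      have h1 := h a b c
      rw [hp, zero_smul, zero_add] at h1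
      exact smul_cancel h1 hq
    · refine as_three ho (k := -(p / q)) (neg_ne_zero.mpr (div_ne_zero hp hq)) ?_ ?_ ?_ a b c d
      · intro h1
        apply hpq
        have h2 : p = -q := by
          field_simp at h1
          linear_combination -h1
        rw [h2]
        ring
      · intro h1
        apply hpq
        have h2 : p = q := by
          field_simp at h1
          linear_combination -h1
        rw [h2]
      · intro a b c
        have h1 := h a b c
        have h2 : q • (o c (o a b) + o c (o b a) - (-(p / q)) • (o a (o b c) + o b (o a c)))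
            = 0 := by
          have h3 : q * (p / q) = p := by field_simp
          rw [smul_sub, smul_smul, mul_neg, h3]
          linear_combination (norm := module) h1
        exact sub_eq_zero.mp (smul_cancel h2 hq)

theorem as_main [CharZero F] (ho : ∀ a b c : B, o (o a b) c = o a (o b c)) {α β : F}
    (hT : (α - β) * (α - β - 1) ≠ 0) (hab : α ^ 2 ≠ β ^ 2)
    (hz : ∀ a b c : B, (α ^ 2 - α) • o a (o b c) - (α * β) • o b (o a c)
      - (α * β) • o c (o a b) + β ^ 2 • o c (o b a) + β • o b (o c a) = 0)
    (a b c d : B) : o a (o b (o c d)) = 0 := by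
  obtain ⟨h0, h1, h3⟩ := as_rows hT hz
  have hα : ¬ (β = 0 ∧ α ^ 2 - α = 0) := by
    rintro ⟨e1, e2⟩
    apply hT
    rw [e1]
    linear_combination e2
  by_cases c1 : (α ^ 2 - α - α * β - β) ^ 2 = (β ^ 2 - α * β - β) ^ 2
  swap
  · exact as_pair ho c1 h1 a b c d
  by_cases c3 : (β ^ 2 + β + 2 * α * β) ^ 2 = (α ^ 2 - α + 2 * α * β) ^ 2
  swap
  · exact as_pair ho c3 h3 a b c d
  -- `p₁ ≠ 0`
  have n1 : α ^ 2 - α - α * β - β ≠ 0 := by
    intro e1
    have e2 : β ^ 2 - α * β - β = 0 := by
      rw [e1] at c1
      have : (β ^ 2 - α * β - β) ^ 2 = 0 := by rw [← c1]; ring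
      exact pow_eq_zero_iff (two_ne_zero) |>.mp this
    have e3 : β * (β - α - 1) = 0 := by linear_combination e2
    rcases mul_eq_zero.mp e3 with e4 | e4
    · exact hα ⟨e4, by rw [e4] at e1; linear_combination e1⟩
    · have e5 : β = α + 1 := by linear_combination e4
      have e6 : -3 * α - 1 = 0 := by rw [e5] at e1; linear_combination e1
      have e7 : α = -1 / 3 := by linear_combination (-1 / 3) * e6
      rw [e5, e7] at c3
      norm_num at c3
  have n3 : β ^ 2 + β + 2 * α * β ≠ 0 := by
    intro e1
    have e2 : α ^ 2 - α + 2 * α * β = 0 := by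
      rw [e1] at c3
      have : (α ^ 2 - α + 2 * α * β) ^ 2 = 0 := by rw [← c3]; ring
      exact pow_eq_zero_iff (two_ne_zero) |>.mp this
    have e3 : β * (β + 1 + 2 * α) = 0 := by linear_combination e1
    rcases mul_eq_zero.mp e3 with e4 | e4
    · exact hα ⟨e4, by rw [e4] at e2; linear_combination e2⟩
    · have e5 : β = -1 - 2 * α := by linear_combination e4
      have e6 : -3 * (α * (α + 1)) = 0 := by rw [e5] at e2; linear_combination e2
      have e7 : α * (α + 1) = 0 := (mul_eq_zero.mp e6).resolve_left (by norm_num)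
      rcases mul_eq_zero.mp e7 with e8 | e8
      · rw [e5, e8] at c1
        norm_num at c1
      · have e9 : α = -1 := by linear_combination e8
        apply hab
        rw [e5, e9]
        norm_num
  have s1 := sq_eq_sq_iff_eq_or_eq_neg.mp c1
  have s3 := sq_eq_sq_iff_eq_or_eq_neg.mp c3
  rcases s1 with s1 | s1 <;> rcases s3 with s3 | s3
  · exfalso
    have e1 : α ^ 2 - α = β ^ 2 := by linear_combination s1
    have e2 : β = 0 := by linear_combination s3 + e1
    exact hα ⟨e2, by rw [e1, e2]; ring⟩
  · refine as_one ho ?_ a b c d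
    intro a b c
    have t1 := h1 a b c
    have t3 := h3 a b c
    rw [← s1, ← smul_add] at t1
    have t1' := smul_cancel t1 n1
    have n4 : α ^ 2 - α + 2 * α * β ≠ 0 := by
      intro e
      rw [e, neg_zero] at s3
      exact n3 s3
    rw [s3] at t3
    have t3' : (α ^ 2 - α + 2 * α * β) • (-(o a (o b c) + o b (o a c))
        + (o c (o a b) + o c (o b a))) = 0 := by
      linear_combination (norm := module) t3
    have t4 := smul_cancel t3' n4
    have t5 : (2 : F) • (o a (o b c) + o b (o a c)) = 0 := by
      linear_combination (norm := module) t1' - t4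
    exact smul_cancel t5 two_ne_zero
  · refine as_one ho ?_ a b c d
    intro a b c
    have t1 := h1 a b c
    have t3 := h3 a b c
    rw [← s3, ← smul_add] at t3
    have t3' := smul_cancel t3 n3
    have n4 : β ^ 2 - α * β - β ≠ 0 := by
      intro e
      rw [e, neg_zero] at s1
      exact n1 s1
    rw [s1] at t1
    have t1' : (β ^ 2 - α * β - β) • (-(o a (o b c) + o b (o a c))
        + (o c (o a b) + o c (o b a))) = 0 := by
      linear_combination (norm := module) t1
    have t4 := smul_cancel t1' n4
    have t5 : (2 : F) • (o a (o b c) + o b (o a c)) = 0 := by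
      linear_combination (norm := module) t3' - t4
    exact smul_cancel t5 two_ne_zero
  · have e1 : β * (2 * α + 1) = 0 := by
      have : 3 * (β * (2 * α + 1)) = 0 := by linear_combination s3 - s1
      exact (mul_eq_zero.mp this).resolve_left (by norm_num)
    rcases mul_eq_zero.mp e1 with e2 | e2
    · exact absurd ⟨e2, by rw [e2] at s1; linear_combination s1⟩ hα
    have e3 : α = -1 / 2 := by linear_combination (1 / 2) * e2
    have e4 : β ^ 2 - β + 3 / 4 = 0 := by rw [e3] at s1; linear_combination s1
    have hC : ∀ a b c : B, o a (o b c) + o b (o a c) = o c (o a b) + o c (o b a) := by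
      intro a b c
      have t3 := h3 a b c
      have n4 : α ^ 2 - α + 2 * α * β ≠ 0 := by
        intro e
        rw [e, neg_zero] at s3
        exact n3 s3
      rw [s3] at t3
      have t3' : (α ^ 2 - α + 2 * α * β) • ((o a (o b c) + o b (o a c))
          - (o c (o a b) + o c (o b a))) = 0 := by
        linear_combination (norm := module) -t3
      exact sub_eq_zero.mp (smul_cancel t3' n4)
    refine as_four ho hC ?_ h0 a b c d
    intro a b c
    have hS : (α - β) * (α + β - 1) ≠ 0 := by
      refine mul_ne_zero ?_ ?_
      · intro e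
        apply hT
        rw [e, zero_mul]
      · intro e
        have e5 : β = 3 / 2 := by rw [e3] at e; linear_combination e
        rw [e5] at e4
        norm_num at e4
    refine smul_cancel (r := (α - β) * (α + β - 1)) ?_ hS
    linear_combination (norm := module) hz a b c - hz a c b - hz b a c + hz b c a + hz c a b
      - hz c b a

theorem as_zero {α β : F} (hT : (α - β) * (α - β - 1) ≠ 0) (hS : α + β - 1 ≠ 0)
    (hD : (α ^ 2 - α - α * β - β) * (α ^ 2 - α + 2 * α * β)
      - (β ^ 2 + β + 2 * α * β) * (β ^ 2 - α * β - β) ≠ 0)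
    (hz : ∀ a b c : B, (α ^ 2 - α) • o a (o b c) - (α * β) • o b (o a c)
      - (α * β) • o c (o a b) + β ^ 2 • o c (o b a) + β • o b (o c a) = 0)
    (a b c : B) : o a (o b c) = 0 := by
  obtain ⟨h0, h1, h3⟩ := as_rows hT hz
  have hU : ∀ a b c : B, o a (o b c) + o b (o a c) = 0 := by
    intro a b c
    refine smul_cancel ?_ hD
    linear_combination (norm := module) (α ^ 2 - α + 2 * α * β) • h1 a b c
      - (β ^ 2 - α * β - β) • h3 a b c
  have hW : ∀ a b c : B, o c (o a b) + o c (o b a) = 0 := by
    intro a b c
    refine smul_cancel ?_ hD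
    linear_combination (norm := module) (α ^ 2 - α - α * β - β) • h3 a b c
      - (β ^ 2 + β + 2 * α * β) • h1 a b c
  have hα : (α - β) ≠ 0 := left_ne_zero_of_mul hT
  refine smul_cancel (r := (α - β) * (α + β - 1)) ?_ (mul_ne_zero hα hS)
  have u1 := hU a b c
  have u2 := hU b c a
  have w1 := hW a b c
  have w3 := hW a c b
  have z := hz a b c
  linear_combination (norm := module) z + (α * β) • u1 - β • w3 + β • u1
    - β ^ 2 • u2 + β ^ 2 • w3 - β ^ 2 • u1
    + (α * β) • w1 - (α * β) • u2 + (α * β) • w3 - (α * β) • u1

end Pool.Agent.OPR
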