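import Pool.Agent.OPR.Base

/-!
# The plane `c_3 = c_4 = c_5 = c_6 = 0`: the relation `(ab)w = x a(bw) + y a(wb)`; reduction

With `b ∘ c = x bc + y cb` the relation is `(ab)c = a(b ∘ c)`. All products of `m + 1` elements
vanish in all algebras with the relation if and only if all products of `m` elements vanish in
all those in which `∘` is associative.
-/

namespace Pool.Agent.OPR

variable {F : Type} [Field F]

/-- `b ∘ c = x bc + y cb`. -/
noncomputable def circ {A : Type} [AddCommGroup A] [Module F A] (x y : F)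
    (μ : A →ₗ[F] A →ₗ[F] A) : A →ₗ[F] A →ₗ[F] A := x • μ + y • μ.flip

section

variable {A : Type} [AddCommGroup A] [Module F A]

lemma circ_apply (x y : F) (μ : A →ₗ[F] A →ₗ[F] A) (b c : A) :
    circ x y μ b c = x • μ b c + y • μ c b := by
  simp [circ]

lemma fp_sat_iff (x y : F) (μ : A →ₗ[F] A →ₗ[F] A) :
    Sat ![x, y, 0, 0, 0, 0] μ ↔
      ∀ a b w : A, μ (μ a b) w = x • μ a (μ b w) + y • μ a (μ w b) := by
  unfold Sat
  constructor
  · intro h a b w
    have := h a b w
    simpa using this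
  · intro h a b w
    simpa using h a b w

/-- If `a u = 0` for all products `u` of `m` elements, then all products of `m + 1` elements
vanish. -/
lemma fp_step {x y : F} {μ : A →ₗ[F] A →ₗ[F] A}
    (h : ∀ a b w : A, μ (μ a b) w = x • μ a (μ b w) + y • μ a (μ w b)) {m : ℕ} (hm : 1 ≤ m)
    (h0 : ∀ a u : A, IsProd μ m u → μ a u = 0) (w : A) (hw : IsProd μ (m + 1) w) : w = 0 := by
  have key : ∀ n i j : ℕ, i ≤ n → i + j = m + 1 → ∀ p q : A, IsProd μ i p → IsProd μ j q →
      μ p q = 0 := by
    intro n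
    induction n with
    | zero =>
      intro i j hi _ p q hp _
      have := isProd_pos hp
      omega
    | succ n ih =>
      intro i j hi hij p q hp hq
      by_cases h1 : i = 1
      · subst h1
        have : j = m := by omega
        subst this
        exact h0 p q hq
      · have hip := isProd_pos hp
        obtain ⟨i1, i2, p1, p2, h2, h3, h4, hp1, hp2, rfl⟩ := isProd_split hp (by omega)
        have h5 := ih i1 (i2 + j) (by omega) (by omega) p1 (μ p2 q) hp1
          (IsProd.mul _ _ _ _ hp2 hq)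
        have h6 := ih i1 (j + i2) (by omega) (by omega) p1 (μ q p2) hp1
          (IsProd.mul _ _ _ _ hq hp2)
        rw [h, h5, h6, smul_zero, smul_zero, add_zero]
  obtain ⟨i, j, p, q, hi, hj, hij, hp, hq, rfl⟩ := isProd_split hw (by omega)
  exact key i i j le_rfl hij p q hp hq

/-! ### The quotient by the right annihilator -/

variable (K : Submodule F A) (μ : A →ₗ[F] A →ₗ[F] A)

lemma quo_ker1 (h1 : ∀ a v : A, v ∈ K → μ a v ∈ K) :
    K ≤ LinearMap.ker (μ.compr₂ K.mkQ).flip := by
  intro g hg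
  rw [LinearMap.mem_ker]
  apply LinearMap.ext
  intro a
  simp only [LinearMap.flip_apply, LinearMap.compr₂_apply, Submodule.mkQ_apply,
    LinearMap.zero_apply]
  rw [Submodule.Quotient.mk_eq_zero]
  exact h1 a g hg

lemma quo_ker2 (h1 : ∀ a v : A, v ∈ K → μ a v ∈ K) (h2 : ∀ u w : A, u ∈ K → μ u w ∈ K) :
    K ≤ LinearMap.ker (K.liftQ (μ.compr₂ K.mkQ).flip (quo_ker1 K μ h1)).flip := by
  intro f hf
  rw [LinearMap.mem_ker]
  apply LinearMap.ext
  intro y
  obtain ⟨g, rfl⟩ := K.mkQ_surjective y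
  change K.mkQ (μ f g) = 0
  rw [Submodule.mkQ_apply, Submodule.Quotient.mk_eq_zero]
  exact h2 f g hf

/-- The product of the quotient by a two-sided ideal. -/
noncomputable def quo (h1 : ∀ a v : A, v ∈ K → μ a v ∈ K) (h2 : ∀ u w : A, u ∈ K → μ u w ∈ K) :
    (A ⧸ K) →ₗ[F] (A ⧸ K) →ₗ[F] (A ⧸ K) :=
  K.liftQ (K.liftQ (μ.compr₂ K.mkQ).flip (quo_ker1 K μ h1)).flip (quo_ker2 K μ h1 h2)

lemma quo_mk (h1 : ∀ a v : A, v ∈ K → μ a v ∈ K) (h2 : ∀ u w : A, u ∈ K → μ u w ∈ K)
    (f g : A) : quo K μ h1 h2 (K.mkQ f) (K.mkQ g) = K.mkQ (μ f g) := rfl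

lemma quo_prod (h1 : ∀ a v : A, v ∈ K → μ a v ∈ K) (h2 : ∀ u w : A, u ∈ K → μ u w ∈ K)
    {n : ℕ} {u : A} (h : IsProd μ n u) : IsProd (quo K μ h1 h2) n (K.mkQ u) := by
  induction h with
  | one a => exact IsProd.one _
  | mul i j a b _ _ ha hb =>
    rw [← quo_mk K μ h1 h2]
    exact IsProd.mul _ _ _ _ ha hb

end

/-- The statement that all products of `m` elements vanish in all algebras with the relation
in which `∘` is associative. -/
def VanB (x y : F) (m : ℕ) : Prop :=
  ∀ (B : Type) [AddCommGroup B] [Module F B] (μ : B →ₗ[F] B →ₗ[F] B),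
    (∀ a b w : B, μ (μ a b) w = x • μ a (μ b w) + y • μ a (μ w b)) →
    (∀ a b c : B, circ x y μ (circ x y μ a b) c = circ x y μ a (circ x y μ b c)) →
    ∀ u : B, IsProd μ m u → u = 0

theorem fp_van {x y : F} (hxy : x ≠ 0 ∨ y ≠ 0) {m : ℕ} (hm : 1 ≤ m) (h : VanB x y m) :
    Van ![x, y, 0, 0, 0, 0] (m + 1) := by
  intro A _ _ μ hμ w hw
  rw [fp_sat_iff] at hμ
  have hS : ∀ a b c : A, μ (μ a b) c = μ a (circ x y μ b c) := by
    intro a b c
    rw [hμ, circ_apply, map_add, map_smul, map_smul]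
  let K : Submodule F A := LinearMap.ker μ.flip
  have hK : ∀ u : A, u ∈ K ↔ ∀ a, μ a u = 0 := by
    intro u
    change u ∈ LinearMap.ker μ.flip ↔ _
    rw [LinearMap.mem_ker]
    constructor
    · intro h1 a
      have := LinearMap.congr_fun h1 a
      simpa using this
    · intro h1
      apply LinearMap.ext
      intro a
      simpa using h1 a
  have h1 : ∀ a v : A, v ∈ K → μ a v ∈ K := by
    intro a v hv
    rw [(hK v).mp hv a]
    exact K.zero_mem
  have h2 : ∀ u w : A, u ∈ K → μ u w ∈ K := by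
    intro u w hu
    rw [hK] at hu ⊢
    intro a
    rcases hxy with hx | hy
    · have h3 := hμ a u w
      rw [hu a, hu w, LinearMap.map_zero, LinearMap.zero_apply, map_zero, smul_zero,
        add_zero] at h3
      exact (smul_eq_zero.mp h3.symm).resolve_left hx
    · have h3 := hμ a w u
      rw [hu w, hu (μ a w), map_zero, smul_zero, zero_add] at h3
      exact (smul_eq_zero.mp h3.symm).resolve_left hy
  refine fp_step hμ hm ?_ w hw
  intro a u hu
  have h3 : K.mkQ u = 0 := by
    refine h (A ⧸ K) (quo K μ h1 h2) ?_ ?_ _ (quo_prod K μ h1 h2 hu)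
    · intro a b c
      obtain ⟨a, rfl⟩ := K.mkQ_surjective a
      obtain ⟨b, rfl⟩ := K.mkQ_surjective b
      obtain ⟨c, rfl⟩ := K.mkQ_surjective c
      simp only [quo_mk, hμ, map_add, map_smul]
    · intro b c d
      obtain ⟨b, rfl⟩ := K.mkQ_surjective b
      obtain ⟨c, rfl⟩ := K.mkQ_surjective c
      obtain ⟨d, rfl⟩ := K.mkQ_surjective d
      have h4 : ∀ b c : A, circ x y (quo K μ h1 h2) (K.mkQ b) (K.mkQ c)
          = K.mkQ (circ x y μ b c) := by
        intro b c
        rw [circ_apply, circ_apply, quo_mk, quo_mk, map_add, map_smul, map_smul]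
      rw [h4, h4, h4, h4, ← sub_eq_zero, ← map_sub, Submodule.mkQ_apply,
        Submodule.Quotient.mk_eq_zero, hK]
      intro a
      rw [map_sub, sub_eq_zero, ← hS, ← hS, ← hS, ← hS, hS a b c]
  rw [Submodule.mkQ_apply, Submodule.Quotient.mk_eq_zero, hK] at h3
  exact h3 a

section Ext

variable {B : Type} [AddCommGroup B] [Module F B]

/-- The product `(b, s, m)(b', s', m') = (b b', 0, s b' + m ∘ b')` on `B × F × B`. -/
noncomputable def ext (μ o : B →ₗ[F] B →ₗ[F] B) :
    (B × F × B) →ₗ[F] (B × F × B) →ₗ[F] (B × F × B) :=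
  LinearMap.mk₂ F (fun p q => (μ p.1 q.1, 0, p.2.1 • q.1 + o p.2.2 q.1))
    (by
      intro a b c
      refine Prod.ext ?_ (Prod.ext ?_ ?_)
      · simp
      · simp
      · simp only [Prod.snd_add, Prod.fst_add, map_add, LinearMap.add_apply]
        module)
    (by
      intro r a b
      refine Prod.ext ?_ (Prod.ext ?_ ?_)
      · simp
      · simp
      · simp only [Prod.smul_snd, Prod.smul_fst, map_smul, LinearMap.smul_apply, smul_eq_mul]
        module)
    (by
      intro a b c
      refine Prod.ext ?_ (Prod.ext ?_ ?_)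
      · simp
      · simp
      · simp only [Prod.snd_add, Prod.fst_add, map_add]
        module)
    (by
      intro r a b
      refine Prod.ext ?_ (Prod.ext ?_ ?_)
      · simp
      · simp
      · simp only [Prod.smul_snd, Prod.smul_fst, map_smul]
        module)

lemma ext_apply (μ o : B →ₗ[F] B →ₗ[F] B) (p q : B × F × B) :
    ext μ o p q = (μ p.1 q.1, 0, p.2.1 • q.1 + o p.2.2 q.1) := rfl

lemma ext_prod (μ o : B →ₗ[F] B →ₗ[F] B) {n : ℕ} {u : B} (h : IsProd μ n u) :
    IsProd (ext μ o) n (u, 0, 0) := by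
  induction h with
  | one a => exact IsProd.one _
  | mul i j a b _ _ ha hb =>
    have := IsProd.mul _ _ _ _ ha hb
    rw [ext_apply] at this
    simpa using this

end Ext

theorem fp_vanB {x y : F} {m : ℕ} (h : Van ![x, y, 0, 0, 0, 0] (m + 1)) : VanB x y m := by
  intro B _ _ μ hμ ho u hu
  have h1 := h (B × F × B) (ext μ (circ x y μ)) (by
      rw [fp_sat_iff]
      intro a b c
      refine Prod.ext ?_ (Prod.ext ?_ ?_)
      · simp only [ext_apply, Prod.fst_add, Prod.smul_fst]
        exact hμ _ _ _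
      · simp [ext_apply]
      · simp only [ext_apply, Prod.snd_add, Prod.smul_snd, zero_smul, zero_add, map_add,
          LinearMap.add_apply, map_smul, LinearMap.smul_apply, ho]
        have h2 : circ x y μ b.1 c.1 = x • μ b.1 c.1 + y • μ c.1 b.1 := circ_apply _ _ _ _ _
        rw [h2, map_add, map_smul, map_smul]
        module)
    (ext μ (circ x y μ) (0, 1, 0) (u, 0, 0))
    (by
      have := IsProd.mul 1 m _ _ (IsProd.one (μ := ext μ (circ x y μ)) (0, 1, 0))
        (ext_prod μ (circ x y μ) hu)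
      rwa [add_comm] at this)
  rw [ext_apply] at h1
  have h2 := congrArg (fun p => p.2.2) h1
  simpa using h2

end Pool.Agent.OPR
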