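import Pool.Agent.OPR.FirstBase

/-!
# The plane `c_3 = c_4 = c_5 = c_6 = 0`: the lines `x = y` and `x = -y`
-/

namespace Pool.Agent.OPR

variable {F : Type} [Field F]

private lemma cancel {B : Type} [AddCommGroup B] [Module F B] {r : F} {u : B} (h : r • u = 0)
    (hr : r ≠ 0) : u = 0 := (smul_eq_zero.mp h).resolve_left hr

section Shapes

variable {B : Type} [AddCommGroup B] [Module F B] {x y : F} {μ : B →ₗ[F] B →ₗ[F] B}

lemma fp_four (h : ∀ a b w : B, μ (μ a b) w = x • μ a (μ b w) + y • μ a (μ w b))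
    (h4 : ∀ a b c d : B, μ a (μ b (μ c d)) = 0) (u : B) (hu : IsProd μ 4 u) : u = 0 := by
  refine fp_step h (m := 3) (by norm_num) ?_ u hu
  intro a v hv
  obtain ⟨i, j, p, q, hi, hj, hij, hp, hq, rfl⟩ := isProd_split hv (by norm_num)
  have h5 : i = 1 ∧ j = 2 ∨ i = 2 ∧ j = 1 := by omega
  rcases h5 with ⟨rfl, rfl⟩ | ⟨rfl, rfl⟩
  · obtain ⟨-, -, r, s, -, -, -, -, -, rfl⟩ := isProd_split hq (by norm_num)
    exact h4 _ _ _ _
  · obtain ⟨-, -, r, s, -, -, -, -, -, rfl⟩ := isProd_split hp (by norm_num)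
    rw [h, map_add, map_smul, map_smul, h4, h4, smul_zero, smul_zero, add_zero]

lemma fp_five (h : ∀ a b w : B, μ (μ a b) w = x • μ a (μ b w) + y • μ a (μ w b))
    (h5 : ∀ a b c d e : B, μ a (μ b (μ c (μ d e))) = 0) (u : B) (hu : IsProd μ 5 u) :
    u = 0 := by
  refine fp_step h (m := 4) (by norm_num) ?_ u hu
  intro a v hv
  have k3 : ∀ a b w : B, IsProd μ 3 w → μ a (μ b w) = 0 := by
    intro a b v hv
    obtain ⟨i, j, p, q, hi, hj, hij, hp, hq, rfl⟩ := isProd_split hv (by norm_num)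
    have h6 : i = 1 ∧ j = 2 ∨ i = 2 ∧ j = 1 := by omega
    rcases h6 with ⟨rfl, rfl⟩ | ⟨rfl, rfl⟩
    · obtain ⟨-, -, r, s, -, -, -, -, -, rfl⟩ := isProd_split hq (by norm_num)
      exact h5 _ _ _ _ _
    · obtain ⟨-, -, r, s, -, -, -, -, -, rfl⟩ := isProd_split hp (by norm_num)
      rw [h, map_add, map_smul, map_smul, map_add, map_smul, map_smul, h5, h5, smul_zero,
        smul_zero, add_zero]
  obtain ⟨i, j, p, q, hi, hj, hij, hp, hq, rfl⟩ := isProd_split hv (by norm_num)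
  have h6 : i = 1 ∧ j = 3 ∨ i = 2 ∧ j = 2 ∨ i = 3 ∧ j = 1 := by omega
  rcases h6 with ⟨rfl, rfl⟩ | ⟨rfl, rfl⟩ | ⟨rfl, rfl⟩
  · exact k3 _ _ _ hq
  · obtain ⟨-, -, r, s, -, -, -, -, -, rfl⟩ := isProd_split hp (by norm_num)
    have e1 : IsProd μ 3 (μ s q) := IsProd.mul 1 2 _ _ (IsProd.one _) hq
    have e2 : IsProd μ 3 (μ q s) := IsProd.mul 2 1 _ _ hq (IsProd.one _)
    rw [h, map_add, map_smul, map_smul, k3 _ _ _ e1, k3 _ _ _ e2, smul_zero, smul_zero,
      add_zero]
  · obtain ⟨i', j', p1, p2, hi', hj', hij', hp1, hp2, rfl⟩ := isProd_split hp (by norm_num)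
    have h7 : i' = 1 ∧ j' = 2 ∨ i' = 2 ∧ j' = 1 := by omega
    rcases h7 with ⟨rfl, rfl⟩ | ⟨rfl, rfl⟩
    · have e1 : IsProd μ 3 (μ p2 q) := IsProd.mul 2 1 _ _ hp2 hq
      have e2 : IsProd μ 3 (μ q p2) := IsProd.mul 1 2 _ _ hq hp2
      rw [h, map_add, map_smul, map_smul, k3 _ _ _ e1, k3 _ _ _ e2, smul_zero, smul_zero,
        add_zero]
    · obtain ⟨-, -, r, s, -, -, -, -, -, rfl⟩ := isProd_split hp1 (by norm_num)
      have e1 : IsProd μ 3 (μ s (μ p2 q)) :=
        IsProd.mul 1 2 _ _ (IsProd.one _) (IsProd.mul 1 1 _ _ hp2 hq)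
      have e2 : IsProd μ 3 (μ (μ p2 q) s) :=
        IsProd.mul 2 1 _ _ (IsProd.mul 1 1 _ _ hp2 hq) (IsProd.one _)
      have e3 : IsProd μ 3 (μ s (μ q p2)) :=
        IsProd.mul 1 2 _ _ (IsProd.one _) (IsProd.mul 1 1 _ _ hq hp2)
      have e4 : IsProd μ 3 (μ (μ q p2) s) :=
        IsProd.mul 2 1 _ _ (IsProd.mul 1 1 _ _ hq hp2) (IsProd.one _)
      rw [h (μ r s) p2 q, h r s (μ p2 q), h r s (μ q p2)]
      simp only [map_add, map_smul, k3 _ _ _ e1, k3 _ _ _ e2, k3 _ _ _ e3, k3 _ _ _ e4,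
        smul_zero, add_zero]

end Shapes

section Equal

variable {B : Type} [AddCommGroup B] [Module F B] {u : F} {μ : B →ₗ[F] B →ₗ[F] B}

lemma eq_sym (hu0 : u ≠ 0) (hu1 : u ≠ 1)
    (h : ∀ a b w : B, μ (μ a b) w = u • μ a (μ b w) + u • μ a (μ w b))
    (ho : ∀ a b c : B, circ u u μ (circ u u μ a b) c = circ u u μ a (circ u u μ b c))
    (b c d : B) : μ b (μ c d) + μ b (μ d c) = μ d (μ b c) + μ d (μ c b) := by
  have h1 := ho b c d
  simp only [circ_apply, map_add, map_smul, LinearMap.add_apply, LinearMap.smul_apply, h] at h1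
  have h2 : (u ^ 2 * (1 - u)) • ((μ b (μ c d) + μ b (μ d c)) - (μ d (μ b c) + μ d (μ c b)))
      = 0 := by
    linear_combination (norm := module) -h1
  exact sub_eq_zero.mp (cancel h2 (mul_ne_zero (pow_ne_zero 2 hu0)
    (sub_ne_zero.mpr (Ne.symm hu1))))

/-- `(cd){a, b} = (u + 2 u²) c {a, {b, d}}`-type identities. -/
lemma eq_key (hu0 : u ≠ 0) (hu1 : u ≠ 1)
    (h : ∀ a b w : B, μ (μ a b) w = u • μ a (μ b w) + u • μ a (μ w b))
    (ho : ∀ a b c : B, circ u u μ (circ u u μ a b) c = circ u u μ a (circ u u μ b c))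
    (a b c d : B) :
    (μ (μ c d) (μ a b) + μ (μ c d) (μ b a)
      = (u + 2 * u ^ 2) • (μ c (μ a (μ b d)) + μ c (μ a (μ d b)))) ∧
    (μ a (μ b (μ c d)) + u • (μ a (μ c (μ b d)) + μ a (μ c (μ d b)))
      = (u + 2 * u ^ 2) • (μ c (μ a (μ b d)) + μ c (μ a (μ d b)))) := by
  have g := eq_sym hu0 hu1 h ho
  have k1 : μ (μ c d) (μ a b) + μ (μ c d) (μ b a)
      = (u + 2 * u ^ 2) • (μ c (μ a (μ b d)) + μ c (μ a (μ d b))) := by
    have g1 := congrArg (μ c) (g a b d)
    have g2 := congrArg (μ c) (g b a d)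
    simp only [map_add] at g1 g2
    rw [h c d (μ a b), h c d (μ b a), h a b d, h b a d]
    simp only [map_add, map_smul]
    linear_combination (norm := module) (-u - u ^ 2) • g1 + (u ^ 2) • g2
  refine ⟨k1, ?_⟩
  have g3 := g a b (μ c d)
  rw [← k1, ← g3, h c d b]
  simp only [map_add, map_smul]
  module

theorem eq_van_four [CharZero F] (hu0 : u ≠ 0) (hu1 : u ≠ 1) (hu2 : u ≠ 1 / 2)
    (hu3 : u ≠ -1 / 2)
    (h : ∀ a b w : B, μ (μ a b) w = u • μ a (μ b w) + u • μ a (μ w b))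
    (ho : ∀ a b c : B, circ u u μ (circ u u μ a b) c = circ u u μ a (circ u u μ b c))
    (a b c d : B) : μ a (μ b (μ c d)) = 0 := by
  have g := eq_sym hu0 hu1 h ho
  have k := eq_key hu0 hu1 h ho
  have n1 : u + 2 * u ^ 2 ≠ 0 := by
    intro e
    have : u * (1 + 2 * u) = 0 := by linear_combination e
    rcases mul_eq_zero.mp this with e1 | e1
    · exact hu0 e1
    · exact hu3 (by linear_combination (1 / 2) * e1)
  obtain ⟨G, hG⟩ : ∃ G : B → B → B → B → B, ∀ c a b d,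
      G c a b d = μ c (μ a (μ b d)) + μ c (μ a (μ d b)) := ⟨fun c a b d => _, fun _ _ _ _ => rfl⟩
  have w1 : ∀ a b c d : B, G c a b d = G d a b c := by
    intro a b c d
    have e1 := (k a b c d).1
    have e2 := (k a b d c).1
    have e3 : ∀ e, μ (μ c d) e = μ (μ d c) e := by
      intro e
      rw [h c d, h d c]
      linear_combination (norm := module) u • g c d e + u • g e c d
    have e5 : (u + 2 * u ^ 2) • (G c a b d - G d a b c) = 0 := by
      rw [hG, hG]
      linear_combination (norm := module) e2 - e1 + e3 (μ a b) + e3 (μ b a)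
    exact sub_eq_zero.mp (cancel e5 n1)
  have s2 : ∀ a b c d : B, G c a b d = G c d a b := by
    intro a b c d
    have := congrArg (μ c) (g a b d)
    rw [hG, hG]
    simpa only [map_add] using this
  have t2 : ∀ a b c d : B, G c a b d = G c a d b := by
    intro a b c d
    rw [hG, hG, add_comm]
  have t1 : ∀ a b c d : B, G c a b d = G c b a d := by
    intro a b c d
    rw [s2 a b c d, t2 d a c b, s2 d b c a, s2 a d c b]
  have t0 : ∀ a b c d : B, G c a b d = G a c b d := by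
    intro a b c d
    rw [s2 a b c d, s2 d a c b, w1 b d c a, s2 b d a c]
  have w3 : ∀ a b c d : B, μ a (μ b (μ c d)) = (2 * u ^ 2) • G a b c d := by
    intro a b c d
    have e1 := (k a b c d).2
    have e2 : μ a (μ c (μ b d)) + μ a (μ c (μ d b)) = G a b c d := by
      rw [← hG, t1]
    have e3 : μ c (μ a (μ b d)) + μ c (μ a (μ d b)) = G a b c d := by
      rw [← hG, t0, t1]
    rw [e2, e3] at e1
    linear_combination (norm := module) e1
  have w4 : ∀ a b c d : B, (1 - 4 * u ^ 2) • G a b c d = 0 := by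
    intro a b c d
    have e1 := w3 a b c d
    have e2 := w3 a b d c
    rw [← t2 b c a d] at e2
    have e3 := hG a b c d
    linear_combination (norm := module) e3 + e1 + e2
  have n2 : (1 - 4 * u ^ 2) ≠ 0 := by
    intro e
    have : (u - 1 / 2) * (u + 1 / 2) = 0 := by linear_combination (-1 / 4) * e
    rcases mul_eq_zero.mp this with e1 | e1
    · exact hu2 (by linear_combination e1)
    · exact hu3 (by linear_combination e1)
  rw [w3, cancel (w4 _ _ _ _) n2, smul_zero]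

theorem eq_van_five [CharZero F]
    (h : ∀ a b w : B, μ (μ a b) w = (-1 / 2 : F) • μ a (μ b w) + (-1 / 2 : F) • μ a (μ w b))
    (ho : ∀ a b c : B, circ (-1 / 2 : F) (-1 / 2) μ (circ (-1 / 2 : F) (-1 / 2) μ a b) c
      = circ (-1 / 2 : F) (-1 / 2) μ a (circ (-1 / 2 : F) (-1 / 2) μ b c))
    (a b c d e : B) : μ a (μ b (μ c (μ d e))) = 0 := by
  have hu0 : (-1 / 2 : F) ≠ 0 := by norm_num
  have hu1 : (-1 / 2 : F) ≠ 1 := by norm_num
  have g := eq_sym hu0 hu1 h ho
  have k := eq_key hu0 hu1 h ho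
  have n : (-1 / 2 : F) + 2 * (-1 / 2) ^ 2 = 0 := by norm_num
  -- `a {b, cd} = 0`
  have k2 : ∀ a b c d : B, μ a (μ b (μ c d)) + μ a (μ (μ c d) b) = 0 := by
    intro a b c d
    have e1 := (k a b c d).1
    rw [n, zero_smul] at e1
    rw [g a b (μ c d)]
    exact e1
  have e1 := (k a b c (μ d e)).2
  rw [n, zero_smul] at e1
  have e2 := congrArg (μ a) (k2 c b d e)
  rw [map_add, map_zero] at e2
  rw [e2, smul_zero, add_zero] at e1
  exact e1

end Equal

section Opposite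

variable {B : Type} [AddCommGroup B] [Module F B] {u : F} {μ : B →ₗ[F] B →ₗ[F] B}

lemma op_rel [CharZero F] (hu0 : u ≠ 0)
    (h : ∀ a b w : B, μ (μ a b) w = u • μ a (μ b w) + (-u) • μ a (μ w b))
    (ho : ∀ a b c : B, circ u (-u) μ (circ u (-u) μ a b) c
      = circ u (-u) μ a (circ u (-u) μ b c)) :
    (∀ b c d : B, (μ (μ b c) d - μ (μ c b) d) = (μ d (μ b c) - μ d (μ c b))) ∧
    (∀ b c d : B, (μ d (μ b c) - μ d (μ c b)) = u • (μ b (μ c d) - μ b (μ d c))
      + u • (μ c (μ d b) - μ c (μ b d))) := by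
  have k : ∀ b c d : B, (μ (μ b c) d - μ (μ c b) d) - (μ d (μ b c) - μ d (μ c b))
      = -((μ (μ c d) b - μ (μ d c) b) - (μ b (μ c d) - μ b (μ d c))) := by
    intro b c d
    have h1 := ho b c d
    simp only [circ_apply, map_add, map_smul, LinearMap.add_apply, LinearMap.smul_apply] at h1
    have h2 : (u ^ 2) • (((μ (μ b c) d - μ (μ c b) d) - (μ d (μ b c) - μ d (μ c b)))
      - (-((μ (μ c d) b - μ (μ d c) b) - (μ b (μ c d) - μ b (μ d c))))) = 0 := by
      linear_combination (norm := module) h1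
    exact sub_eq_zero.mp (cancel h2 (pow_ne_zero 2 hu0))
  have k2 : ∀ b c d : B, (μ (μ b c) d - μ (μ c b) d) = (μ d (μ b c) - μ d (μ c b)) := by
    intro b c d
    have h2 : (2 : F) • ((μ (μ b c) d - μ (μ c b) d) - (μ d (μ b c) - μ d (μ c b))) = 0 := by
      linear_combination (norm := module) k b c d - k c d b + k d b c
    exact sub_eq_zero.mp (cancel h2 two_ne_zero)
  refine ⟨k2, ?_⟩
  intro b c d
  rw [← k2, h, h]
  module

theorem op_van_four [CharZero F] (hu0 : u ≠ 0) (hu1 : u ≠ -1) (hu2 : u ≠ 1 / 2)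
    (h : ∀ a b w : B, μ (μ a b) w = u • μ a (μ b w) + (-u) • μ a (μ w b))
    (ho : ∀ a b c : B, circ u (-u) μ (circ u (-u) μ a b) c
      = circ u (-u) μ a (circ u (-u) μ b c))
    (a b c d : B) : μ a (μ b (μ c d)) = 0 := by
  obtain ⟨-, k⟩ := op_rel hu0 h ho
  have g : ∀ b c d : B, μ d (μ b c) - μ d (μ c b) = 0 := by
    intro b c d
    have n : (1 + u) * (1 - 2 * u) ≠ 0 := by
      refine mul_ne_zero ?_ ?_
      · intro e
        exact hu1 (by linear_combination e)
      · intro e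
        exact hu2 (by linear_combination (-1 / 2) * e)
    refine cancel (r := (1 + u) * (1 - 2 * u)) ?_ n
    have e1 := k b c d
    have e2 := k c d b
    have e3 := k d b c
    linear_combination (norm := module) (1 - 2 * u) • e1 + u • e1 + u • e2 + u • e3
  have g2 : ∀ c d b : B, μ (μ c d) b = 0 := by
    intro c d b
    rw [h, neg_smul, ← sub_eq_add_neg, ← smul_sub, g, smul_zero]
  have e := g b (μ c d) a
  rw [g2, map_zero, sub_zero] at e
  exact e

theorem op_van_five [CharZero F]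
    (h : ∀ a b w : B, μ (μ a b) w = (1 / 2 : F) • μ a (μ b w) + (-(1 / 2) : F) • μ a (μ w b))
    (ho : ∀ a b c : B, circ (1 / 2 : F) (-(1 / 2)) μ (circ (1 / 2 : F) (-(1 / 2)) μ a b) c
      = circ (1 / 2 : F) (-(1 / 2)) μ a (circ (1 / 2 : F) (-(1 / 2)) μ b c))
    (a b c d e : B) : μ a (μ b (μ c (μ d e))) = 0 := by
  obtain ⟨k1, k⟩ := op_rel (by norm_num) h ho
  -- `d [b, c] = b [c, d]`
  have g : ∀ b c d : B, μ d (μ b c) - μ d (μ c b) = μ b (μ c d) - μ b (μ d c) := by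
    intro b c d
    have h2 : (3 / 2 : F) • ((μ d (μ b c) - μ d (μ c b)) - (μ b (μ c d) - μ b (μ d c))) = 0 := by
      linear_combination (norm := module) k b c d - k c d b
    exact sub_eq_zero.mp (cancel h2 (by norm_num))
  -- `a [b, cd] = 0`
  have g2 : ∀ a b c d : B, μ a (μ b (μ c d)) - μ a (μ (μ c d) b) = 0 := by
    intro a b c d
    have e1 := g a b (μ c d)
    have e2 := congrArg (μ c) (k1 a b d)
    simp only [map_sub] at e2
    rw [h c d (μ a b), h c d (μ b a)] at e1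
    linear_combination (norm := module) -e1 + (-1 / 2 : F) • e2
  have e1 := g2 a b c (μ d e)
  have e2 := congrArg (μ a) (g2 c b d e)
  rw [h c (μ d e) b] at e1
  simp only [map_sub, map_zero, map_add, map_smul] at e1 e2
  linear_combination (norm := module) e1 + (-1 / 2 : F) • e2

end Opposite

end Pool.Agent.OPR
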