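import Pool.Agent.OPR.FirstBase

/-!
# Examples for the plane `c_3 = c_4 = c_5 = c_6 = 0`
-/

namespace Pool.Agent.OPR

open Finsupp

variable {F : Type} [Field F]

/-! ### Products of three elements -/

/-- `g g = h`, `g h = k`, `h g = t k`. -/
noncomputable def fxThree (t : F) : (Fin 3 → F) →ₗ[F] (Fin 3 → F) →ₗ[F] (Fin 3 → F) :=
  LinearMap.mk₂ F (fun v w => ![0, v 0 * w 0, v 0 * w 1 + t * (v 1 * w 0)])
    (by intro a b c; ext i; fin_cases i <;> simp <;> ring)
    (by intro r a b; ext i; fin_cases i <;> simp <;> ring)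
    (by intro a b c; ext i; fin_cases i <;> simp <;> ring)
    (by intro r a b; ext i; fin_cases i <;> simp <;> ring)

lemma fxThree_apply (t : F) (v w : Fin 3 → F) :
    fxThree t v w = ![0, v 0 * w 0, v 0 * w 1 + t * (v 1 * w 0)] := rfl

theorem fp_not_van_three (x y : F) : ¬ Van ![x, y, 0, 0, 0, 0] 3 := by
  intro h
  have h1 := h _ (fxThree (x + y))
    (by
      rw [fp_sat_iff]
      intro a b w
      ext i
      fin_cases i <;> simp [fxThree_apply]
      ring)
    (fxThree (x + y) ![1, 0, 0] (fxThree (x + y) ![1, 0, 0] ![1, 0, 0]))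
    (IsProd.mul 1 2 _ _ (IsProd.one _) (IsProd.mul 1 1 _ _ (IsProd.one _) (IsProd.one _)))
  have h2 := congrFun h1 2
  simp [fxThree_apply] at h2

/-! ### Algebras in which no product vanishes -/

/-- `g v = v`. -/
noncomputable def fxTwo : (Fin 2 → F) →ₗ[F] (Fin 2 → F) →ₗ[F] (Fin 2 → F) :=
  LinearMap.mk₂ F (fun v w => ![0, v 0 * w 1])
    (by intro a b c; ext i; fin_cases i <;> simp <;> ring)
    (by intro r a b; ext i; fin_cases i <;> simp <;> ring)
    (by intro a b c; ext i; fin_cases i <;> simp <;> ring)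
    (by intro r a b; ext i; fin_cases i <;> simp <;> ring)

lemma fxTwo_apply (v w : Fin 2 → F) : fxTwo v w = ![0, v 0 * w 1] := rfl

theorem fp_not_van_zero (n : ℕ) (hn : 1 ≤ n) : ¬ Van (F := F) ![0, 0, 0, 0, 0, 0] n := by
  intro h
  have h1 : IsProd (fxTwo (F := F)) n ![0, 1] := by
    clear h
    induction n, hn using Nat.le_induction with
    | base => exact IsProd.one _
    | succ k hk ih =>
      have h := IsProd.mul 1 k ![1, 0] ![0, 1] (IsProd.one _) ih
      have e : fxTwo (F := F) ![1, 0] ![0, 1] = ![0, 1] := by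
        rw [fxTwo_apply]
        simp
      rwa [e, add_comm] at h
  have h3 := h _ fxTwo
    (by
      rw [fp_sat_iff]
      intro a b w
      ext i
      fin_cases i <;> simp [fxTwo_apply])
    _ h1
  have h4 := congrFun h3 1
  simp at h4

theorem fp_not_van_comm {x y : F} (hxy : x + y = 1) (n : ℕ) (hn : 1 ≤ n) :
    ¬ Van ![x, y, 0, 0, 0, 0] n := by
  intro h
  have h1 : IsProd (LinearMap.mul F F) n (1 : F) := by
    clear h
    induction n, hn using Nat.le_induction with
    | base => exact IsProd.one _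
    | succ k hk ih =>
      have h2 := IsProd.mul 1 k (1 : F) (1 : F) (IsProd.one _) ih
      rwa [LinearMap.mul_apply', mul_one, add_comm] at h2
  have h3 := h F (LinearMap.mul F F)
    (by
      rw [fp_sat_iff]
      intro a b w
      simp only [LinearMap.mul_apply', smul_eq_mul]
      linear_combination (-(a * b * w)) * hxy) 1 h1
  exact one_ne_zero h3

/-- `v_i v_j = ((i + 1) / (i + j + 2)) v_(i+j+1)`. -/
noncomputable def zin : (ℕ →₀ F) →ₗ[F] (ℕ →₀ F) →ₗ[F] (ℕ →₀ F) :=
  Finsupp.linearCombination F fun i : ℕ => Finsupp.linearCombination F fun j : ℕ =>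
    single (i + j + 1) (((i : F) + 1) / ((i : F) + j + 2))

lemma zin_single (i j : ℕ) (s t : F) :
    zin (single i s) (single j t)
      = single (i + j + 1) (s * t * (((i : F) + 1) / ((i : F) + j + 2))) := by
  unfold zin
  rw [Finsupp.linearCombination_single, LinearMap.smul_apply, Finsupp.linearCombination_single,
    Finsupp.smul_single, Finsupp.smul_single, smul_eq_mul, smul_eq_mul, mul_assoc]

lemma zin_sat [CharZero F] (a b w : ℕ →₀ F) :
    zin (zin a b) w = zin a (zin b w) + zin a (zin w b) := by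
  induction a using Finsupp.induction_linear with
  | zero => simp
  | add f1 f2 h1 h2 =>
    simp only [map_add, LinearMap.add_apply, h1, h2]
    abel
  | single i r =>
    induction b using Finsupp.induction_linear with
    | zero => simp
    | add f1 f2 h1 h2 =>
      simp only [map_add, LinearMap.add_apply, h1, h2]
      abel
    | single j s =>
      induction w using Finsupp.induction_linear with
      | zero => simp
      | add f1 f2 h1 h2 =>
        simp only [map_add, LinearMap.add_apply, h1, h2]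
        abel
      | single k t =>
        rw [zin_single, zin_single, zin_single, zin_single, zin_single, zin_single,
          show i + (k + j + 1) + 1 = i + (j + k + 1) + 1 by ring, ← Finsupp.single_add,
          show i + j + 1 + k + 1 = i + (j + k + 1) + 1 by ring]
        congr 1
        have e1 : (i : F) + j + 2 ≠ 0 := by
          have : ((i + j + 2 : ℕ) : F) ≠ 0 := Nat.cast_ne_zero.mpr (by omega)
          push_cast at this
          exact this
        have e2 : (j : F) + k + 2 ≠ 0 := by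
          have : ((j + k + 2 : ℕ) : F) ≠ 0 := Nat.cast_ne_zero.mpr (by omega)
          push_cast at this
          exact this
        have e3 : (i : F) + j + k + 3 ≠ 0 := by
          have : ((i + j + k + 3 : ℕ) : F) ≠ 0 := Nat.cast_ne_zero.mpr (by omega)
          push_cast at this
          exact this
        have e4 : (k : F) + j + 2 ≠ 0 := by rwa [add_comm (k : F)]
        push_cast
        have f1 : (i : F) + j + 1 + k + 2 = i + j + k + 3 := by ring
        have f2 : (i : F) + (j + k + 1) + 2 = i + j + k + 3 := by ring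
        have f3 : (i : F) + (k + j + 1) + 2 = i + j + k + 3 := by ring
        rw [f1, f2, f3]
        field_simp
        ring

theorem fp_not_van_zin [CharZero F] (n : ℕ) (hn : 1 ≤ n) :
    ¬ Van (F := F) ![1, 1, 0, 0, 0, 0] n := by
  intro h
  have h1 : ∃ s : F, s ≠ 0 ∧ IsProd zin n (single (n - 1) s) := by
    clear h
    induction n, hn using Nat.le_induction with
    | base => exact ⟨1, one_ne_zero, IsProd.one _⟩
    | succ k hk ih =>
      obtain ⟨s, hs, hp⟩ := ih
      have h := IsProd.mul 1 k (single 0 (1 : F)) _ (IsProd.one _) hp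
      rw [zin_single, add_comm] at h
      refine ⟨_, ?_, by rwa [show 0 + (k - 1) + 1 = k + 1 - 1 by omega] at h⟩
      refine mul_ne_zero (mul_ne_zero one_ne_zero hs) (div_ne_zero ?_ ?_)
      · simp
      · have : ((0 + (k - 1) + 2 : ℕ) : F) ≠ 0 := Nat.cast_ne_zero.mpr (by omega)
        rw [Nat.cast_add, Nat.cast_add] at this
        exact_mod_cast this
  obtain ⟨s, hs, hp⟩ := h1
  have h3 := h _ zin
    (by
      rw [fp_sat_iff]
      intro a b w
      rw [one_smul, one_smul]
      exact zin_sat a b w) _ hp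
  rw [Finsupp.single_eq_zero] at h3
  exact hs h3

/-! ### Products of four elements -/

/-- The exterior algebra of a three-dimensional space. -/
noncomputable def fxSeven (t : F) : (Fin 7 → F) →ₗ[F] (Fin 7 → F) →ₗ[F] (Fin 7 → F) :=
  LinearMap.mk₂ F (fun v w => ![0, 0, 0, v 0 * w 1 - v 1 * w 0, v 0 * w 2 - v 2 * w 0,
      v 1 * w 2 - v 2 * w 1,
      t * (v 0 * w 5 - v 1 * w 4 + v 2 * w 3 + v 5 * w 0 - v 4 * w 1 + v 3 * w 2)])
    (by intro a b c; ext i; fin_cases i <;> simp <;> ring)
    (by intro r a b; ext i; fin_cases i <;> simp <;> ring)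
    (by intro a b c; ext i; fin_cases i <;> simp <;> ring)
    (by intro r a b; ext i; fin_cases i <;> simp <;> ring)

lemma fxSeven_apply (t : F) (v w : Fin 7 → F) :
    fxSeven t v w = ![0, 0, 0, v 0 * w 1 - v 1 * w 0, v 0 * w 2 - v 2 * w 0,
      v 1 * w 2 - v 2 * w 1,
      t * (v 0 * w 5 - v 1 * w 4 + v 2 * w 3 + v 5 * w 0 - v 4 * w 1 + v 3 * w 2)] := rfl

theorem fp_not_van_four_alt {x y : F} (hxy : x - y = 1) : ¬ Van ![x, y, 0, 0, 0, 0] 4 := by
  intro h
  have h1 := fp_vanB (m := 3) h (Fin 7 → F) (fxSeven 1)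
    (by
      intro a b w
      ext i
      fin_cases i <;> simp [fxSeven_apply]
      linear_combination (-((a 1 * b 2 - a 2 * b 1) * w 0 - (a 0 * b 2 - a 2 * b 0) * w 1
        + (a 0 * b 1 - a 1 * b 0) * w 2)) * hxy)
    (by
      intro a b w
      ext i
      fin_cases i <;> simp [fxSeven_apply, circ_apply]
      ring)
    (fxSeven 1 ![1, 0, 0, 0, 0, 0, 0]
      (fxSeven 1 ![0, 1, 0, 0, 0, 0, 0] ![0, 0, 1, 0, 0, 0, 0]))
    (IsProd.mul 1 2 _ _ (IsProd.one _) (IsProd.mul 1 1 _ _ (IsProd.one _) (IsProd.one _)))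
  have h2 := congrFun h1 6
  simp [fxSeven_apply] at h2

/-- `b c = p = -c b`, `b p = q`. -/
noncomputable def fxEq : (Fin 4 → F) →ₗ[F] (Fin 4 → F) →ₗ[F] (Fin 4 → F) :=
  LinearMap.mk₂ F (fun v w => ![0, 0, v 0 * w 1 - v 1 * w 0, v 0 * w 2])
    (by intro a b c; ext i; fin_cases i <;> simp <;> ring)
    (by intro r a b; ext i; fin_cases i <;> simp <;> ring)
    (by intro a b c; ext i; fin_cases i <;> simp <;> ring)
    (by intro r a b; ext i; fin_cases i <;> simp <;> ring)

lemma fxEq_apply (v w : Fin 4 → F) :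
    fxEq v w = ![0, 0, v 0 * w 1 - v 1 * w 0, v 0 * w 2] := rfl

theorem fp_not_van_four_eq (x : F) : ¬ Van ![x, x, 0, 0, 0, 0] 4 := by
  intro h
  have h1 := fp_vanB (m := 3) h (Fin 4 → F) fxEq
    (by
      intro a b w
      ext i
      fin_cases i <;> simp [fxEq_apply]
      ring)
    (by
      intro a b w
      ext i
      fin_cases i <;> simp [fxEq_apply, circ_apply]
      left
      ring)
    (fxEq ![1, 0, 0, 0] (fxEq ![1, 0, 0, 0] ![0, 1, 0, 0]))
    (IsProd.mul 1 2 _ _ (IsProd.one _) (IsProd.mul 1 1 _ _ (IsProd.one _) (IsProd.one _)))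
  have h2 := congrFun h1 3
  simp [fxEq_apply] at h2

/-- `b b = p`, `b p = q`. -/
noncomputable def fxOp : (Fin 3 → F) →ₗ[F] (Fin 3 → F) →ₗ[F] (Fin 3 → F) :=
  LinearMap.mk₂ F (fun v w => ![0, v 0 * w 0, v 0 * w 1])
    (by intro a b c; ext i; fin_cases i <;> simp <;> ring)
    (by intro r a b; ext i; fin_cases i <;> simp <;> ring)
    (by intro a b c; ext i; fin_cases i <;> simp <;> ring)
    (by intro r a b; ext i; fin_cases i <;> simp <;> ring)

lemma fxOp_apply (v w : Fin 3 → F) : fxOp v w = ![0, v 0 * w 0, v 0 * w 1] := rfl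

theorem fp_not_van_four_op (x : F) : ¬ Van ![x, -x, 0, 0, 0, 0] 4 := by
  intro h
  have h1 := fp_vanB (m := 3) h (Fin 3 → F) fxOp
    (by
      intro a b w
      ext i
      fin_cases i <;> simp [fxOp_apply]
      ring)
    (by
      intro a b w
      ext i
      fin_cases i <;> simp [fxOp_apply, circ_apply]
      ring)
    (fxOp ![1, 0, 0] (fxOp ![1, 0, 0] ![1, 0, 0]))
    (IsProd.mul 1 2 _ _ (IsProd.one _) (IsProd.mul 1 1 _ _ (IsProd.one _) (IsProd.one _)))
  have h2 := congrFun h1 2
  simp [fxOp_apply] at h2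

/-! ### Products of five elements -/

/-- `b b = p`, `b p = q = -p b`, `b q = r`. -/
noncomputable def fxFiveEq : (Fin 4 → F) →ₗ[F] (Fin 4 → F) →ₗ[F] (Fin 4 → F) :=
  LinearMap.mk₂ F (fun v w => ![0, v 0 * w 0, v 0 * w 1 - v 1 * w 0, v 0 * w 2])
    (by intro a b c; ext i; fin_cases i <;> simp <;> ring)
    (by intro r a b; ext i; fin_cases i <;> simp <;> ring)
    (by intro a b c; ext i; fin_cases i <;> simp <;> ring)
    (by intro r a b; ext i; fin_cases i <;> simp <;> ring)

lemma fxFiveEq_apply (v w : Fin 4 → F) :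
    fxFiveEq v w = ![0, v 0 * w 0, v 0 * w 1 - v 1 * w 0, v 0 * w 2] := rfl

theorem fp_not_van_five_eq [CharZero F] :
    ¬ Van (F := F) ![-1 / 2, -1 / 2, 0, 0, 0, 0] 5 := by
  intro h
  have h1 := fp_vanB (m := 4) h (Fin 4 → F) fxFiveEq
    (by
      intro a b w
      ext i
      fin_cases i <;> simp [fxFiveEq_apply]
      · ring
      · ring)
    (by
      intro a b w
      ext i
      fin_cases i <;> simp [fxFiveEq_apply, circ_apply]
      · ring
      · ring)
    (fxFiveEq ![1, 0, 0, 0] (fxFiveEq ![1, 0, 0, 0] (fxFiveEq ![1, 0, 0, 0] ![1, 0, 0, 0])))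
    (IsProd.mul 1 3 _ _ (IsProd.one _) (IsProd.mul 1 2 _ _ (IsProd.one _)
      (IsProd.mul 1 1 _ _ (IsProd.one _) (IsProd.one _))))
  have h2 := congrFun h1 3
  simp [fxFiveEq_apply] at h2

/-- `a b = p₁ = -b a`, `b c = p₂ = -c b`, `c a = p₃ = -a c`,
`a p₂ = p₂ a = b p₃ = p₃ b = c p₁ = p₁ c = n`, `a n = r`. -/
noncomputable def fxFiveOp : (Fin 8 → F) →ₗ[F] (Fin 8 → F) →ₗ[F] (Fin 8 → F) :=
  LinearMap.mk₂ F (fun v w => ![0, 0, 0, v 0 * w 1 - v 1 * w 0, v 1 * w 2 - v 2 * w 1,
      v 2 * w 0 - v 0 * w 2,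
      v 0 * w 4 + v 4 * w 0 + v 1 * w 5 + v 5 * w 1 + v 2 * w 3 + v 3 * w 2, v 0 * w 6])
    (by intro a b c; ext i; fin_cases i <;> simp <;> ring)
    (by intro r a b; ext i; fin_cases i <;> simp <;> ring)
    (by intro a b c; ext i; fin_cases i <;> simp <;> ring)
    (by intro r a b; ext i; fin_cases i <;> simp <;> ring)

lemma fxFiveOp_apply (v w : Fin 8 → F) :
    fxFiveOp v w = ![0, 0, 0, v 0 * w 1 - v 1 * w 0, v 1 * w 2 - v 2 * w 1,
      v 2 * w 0 - v 0 * w 2,
      v 0 * w 4 + v 4 * w 0 + v 1 * w 5 + v 5 * w 1 + v 2 * w 3 + v 3 * w 2, v 0 * w 6] := rfl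

theorem fp_not_van_five_op [CharZero F] :
    ¬ Van (F := F) ![1 / 2, -(1 / 2), 0, 0, 0, 0] 5 := by
  intro h
  have h1 := fp_vanB (m := 4) h (Fin 8 → F) fxFiveOp
    (by
      intro a b w
      ext i
      fin_cases i <;> simp [fxFiveOp_apply]
      · ring
      · ring)
    (by
      intro a b w
      ext i
      fin_cases i <;> simp [fxFiveOp_apply, circ_apply]
      · ring
      · ring)
    (fxFiveOp ![1, 0, 0, 0, 0, 0, 0, 0] (fxFiveOp ![1, 0, 0, 0, 0, 0, 0, 0]
      (fxFiveOp ![0, 1, 0, 0, 0, 0, 0, 0] ![0, 0, 1, 0, 0, 0, 0, 0])))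
    (IsProd.mul 1 3 _ _ (IsProd.one _) (IsProd.mul 1 2 _ _ (IsProd.one _)
      (IsProd.mul 1 1 _ _ (IsProd.one _) (IsProd.one _))))
  have h2 := congrFun h1 7
  simp [fxFiveOp_apply] at h2

end Pool.Agent.OPR
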