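import Pool.Agent.OPR.FirstAssoc
import Pool.Agent.OPR.FirstDiag

/-!
# The plane `c_3 = c_4 = c_5 = c_6 = 0` outside of the lines `x = y` and `x = -y`
-/

namespace Pool.Agent.OPR

variable {F : Type} [Field F]

/-- The quartic polynomial of the plane `c_3 = c_4 = c_5 = c_6 = 0`. -/
def quartic (x y : F) : F :=
  (x ^ 2 + x * y + y ^ 2) * (1 + x ^ 2 - y ^ 2) - 2 * x ^ 3 - 2 * x ^ 2 * y + x * y ^ 2

section Algebra

variable {x y : F}

lemma fq_sub (h : x ^ 2 ≠ y ^ 2) :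
    (x / (x ^ 2 - y ^ 2) - y / (x ^ 2 - y ^ 2)) * (x + y) = 1 := by
  have h1 : x ^ 2 - y ^ 2 ≠ 0 := sub_ne_zero.mpr h
  field_simp
  ring

lemma fq_add (h : x ^ 2 ≠ y ^ 2) :
    (x / (x ^ 2 - y ^ 2) + y / (x ^ 2 - y ^ 2)) * (x - y) = 1 := by
  have h1 : x ^ 2 - y ^ 2 ≠ 0 := sub_ne_zero.mpr h
  field_simp
  ring

lemma fq_ne (h : x ^ 2 ≠ y ^ 2) :
    (x / (x ^ 2 - y ^ 2)) ^ 2 ≠ (y / (x ^ 2 - y ^ 2)) ^ 2 := by
  intro e
  have h1 := fq_sub h
  have h2 := fq_add h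
  have h3 : (1 : F) = 0 := by
    linear_combination (-(x / (x ^ 2 - y ^ 2) - y / (x ^ 2 - y ^ 2)) * (x + y)) * h2 - h1
      + (x + y) * (x - y) * e
  exact one_ne_zero h3

lemma fq_T (h : x ^ 2 ≠ y ^ 2) (h1 : x + y ≠ 1) :
    (x / (x ^ 2 - y ^ 2) - y / (x ^ 2 - y ^ 2))
      * (x / (x ^ 2 - y ^ 2) - y / (x ^ 2 - y ^ 2) - 1) ≠ 0 := by
  have h2 := fq_sub h
  refine mul_ne_zero (left_ne_zero_of_mul_eq_one h2) ?_
  intro e
  exact h1 (by linear_combination h2 - (x + y) * e)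

lemma fq_S (h : x ^ 2 ≠ y ^ 2) (h1 : x - y ≠ 1) :
    x / (x ^ 2 - y ^ 2) + y / (x ^ 2 - y ^ 2) - 1 ≠ 0 := by
  have h2 := fq_add h
  intro e
  exact h1 (by linear_combination h2 - (x - y) * e)

lemma fq_D (h : x ^ 2 ≠ y ^ 2) :
    (((x / (x ^ 2 - y ^ 2)) ^ 2 - x / (x ^ 2 - y ^ 2)
        - x / (x ^ 2 - y ^ 2) * (y / (x ^ 2 - y ^ 2)) - y / (x ^ 2 - y ^ 2))
      * ((x / (x ^ 2 - y ^ 2)) ^ 2 - x / (x ^ 2 - y ^ 2)
        + 2 * (x / (x ^ 2 - y ^ 2)) * (y / (x ^ 2 - y ^ 2)))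
      - ((y / (x ^ 2 - y ^ 2)) ^ 2 + y / (x ^ 2 - y ^ 2)
        + 2 * (x / (x ^ 2 - y ^ 2)) * (y / (x ^ 2 - y ^ 2)))
      * ((y / (x ^ 2 - y ^ 2)) ^ 2 - x / (x ^ 2 - y ^ 2) * (y / (x ^ 2 - y ^ 2))
        - y / (x ^ 2 - y ^ 2))) * (x ^ 2 - y ^ 2) ^ 3 = quartic x y := by
  have h1 : x ^ 2 - y ^ 2 ≠ 0 := sub_ne_zero.mpr h
  unfold quartic
  field_simp
  ring

end Algebra

section Vanish

variable {B : Type} [AddCommGroup B] [Module F B] {x y : F} {μ : B →ₗ[F] B →ₗ[F] B}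

lemma fq_mul (h : x ^ 2 ≠ y ^ 2) (a b : B) :
    μ a b = (x / (x ^ 2 - y ^ 2)) • circ x y μ a b - (y / (x ^ 2 - y ^ 2)) • circ x y μ b a := by
  have h1 : x ^ 2 - y ^ 2 ≠ 0 := sub_ne_zero.mpr h
  rw [circ_apply, circ_apply]
  have e1 : x / (x ^ 2 - y ^ 2) * x - y / (x ^ 2 - y ^ 2) * y = 1 := by
    field_simp
  have e2 : x / (x ^ 2 - y ^ 2) * y - y / (x ^ 2 - y ^ 2) * x = 0 := by
    field_simp
    ring
  have e3 : (x / (x ^ 2 - y ^ 2)) • (x • μ a b + y • μ b a)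
      - (y / (x ^ 2 - y ^ 2)) • (x • μ b a + y • μ a b)
      = (x / (x ^ 2 - y ^ 2) * x - y / (x ^ 2 - y ^ 2) * y) • μ a b
        + (x / (x ^ 2 - y ^ 2) * y - y / (x ^ 2 - y ^ 2) * x) • μ b a := by
    module
  rw [e3, e1, e2, one_smul, zero_smul, add_zero]

lemma fq_z {α β : F} {o : B →ₗ[F] B →ₗ[F] B}
    (hm : ∀ a b : B, μ a b = α • o a b - β • o b a)
    (h : ∀ a b w : B, μ (μ a b) w = μ a (o b w))
    (ho : ∀ a b c : B, o (o a b) c = o a (o b c)) (a b c : B) :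
    (α ^ 2 - α) • o a (o b c) - (α * β) • o b (o a c)
      - (α * β) • o c (o a b) + β ^ 2 • o c (o b a) + β • o b (o c a) = 0 := by
  have h1 := h a b c
  rw [hm (μ a b) c, hm a (o b c), hm a b] at h1
  simp only [map_sub, map_smul, LinearMap.sub_apply, LinearMap.smul_apply, ho] at h1
  linear_combination (norm := module) h1

lemma fp_three (h : ∀ a b w : B, μ (μ a b) w = x • μ a (μ b w) + y • μ a (μ w b))
    (h4 : ∀ a b c : B, μ a (μ b c) = 0) (u : B) (hu : IsProd μ 3 u) : u = 0 := by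
  refine fp_step h (m := 2) (by norm_num) ?_ u hu
  intro a v hv
  obtain ⟨i, j, p, q, hi, hj, hij, hp, hq, rfl⟩ := isProd_split hv (by norm_num)
  exact h4 _ _ _

end Vanish

theorem fq_vanB_four [CharZero F] {x y : F} (h : x ^ 2 ≠ y ^ 2) (h1 : x + y ≠ 1) :
    VanB x y 4 := by
  intro B _ _ μ hμ ho u hu
  have hm := fq_mul (μ := μ) h
  have hS : ∀ a b w : B, μ (μ a b) w = μ a (circ x y μ b w) := by
    intro a b c
    rw [hμ, circ_apply, map_add, map_smul, map_smul]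
  have hz := fq_z hm hS ho
  have hW := as_main ho (fq_T h h1) (fq_ne h) hz
  refine fp_four hμ ?_ u hu
  intro a b c d
  rw [hm c d, hm b, hm a]
  simp only [map_sub, map_smul, LinearMap.sub_apply, LinearMap.smul_apply, ho, hW, smul_zero,
    sub_zero]

theorem fq_vanB_three {x y : F} (h : x ^ 2 ≠ y ^ 2) (h1 : x + y ≠ 1)
    (h2 : x - y ≠ 1) (h3 : quartic x y ≠ 0) : VanB x y 3 := by
  intro B _ _ μ hμ ho u hu
  have hm := fq_mul (μ := μ) h
  have hS : ∀ a b w : B, μ (μ a b) w = μ a (circ x y μ b w) := by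
    intro a b c
    rw [hμ, circ_apply, map_add, map_smul, map_smul]
  have hz := fq_z hm hS ho
  have hD := fq_D h
  have hW := as_zero (fq_T h h1) (fq_S h h2) (by
    intro e
    rw [e, zero_mul] at hD
    exact h3 hD.symm) hz
  refine fp_three hμ ?_ u hu
  intro a b c
  rw [hm b, hm a]
  simp only [map_sub, map_smul, LinearMap.sub_apply, LinearMap.smul_apply, ho, hW, smul_zero,
    sub_zero]

/-! ### The examples on the quartic -/

/-- `X X = P`, `X Y = Q`, `Y X = R`, `X Q = P Y = k₁ m`, `X R = Q X = k₂ m`,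
`R X = Y P = k₃ m`. -/
noncomputable def fxSix (k₁ k₂ k₃ : F) : (Fin 6 → F) →ₗ[F] (Fin 6 → F) →ₗ[F] (Fin 6 → F) :=
  LinearMap.mk₂ F (fun v w => ![0, 0, v 0 * w 0, v 0 * w 1, v 1 * w 0,
      k₁ * (v 0 * w 3 + v 2 * w 1) + k₂ * (v 0 * w 4 + v 3 * w 0)
        + k₃ * (v 1 * w 2 + v 4 * w 0)])
    (by intro a b c; ext i; fin_cases i <;> simp <;> ring)
    (by intro r a b; ext i; fin_cases i <;> simp <;> ring)
    (by intro a b c; ext i; fin_cases i <;> simp <;> ring)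
    (by intro r a b; ext i; fin_cases i <;> simp <;> ring)

lemma fxSix_apply (k₁ k₂ k₃ : F) (v w : Fin 6 → F) :
    fxSix k₁ k₂ k₃ v w = ![0, 0, v 0 * w 0, v 0 * w 1, v 1 * w 0,
      k₁ * (v 0 * w 3 + v 2 * w 1) + k₂ * (v 0 * w 4 + v 3 * w 0)
        + k₃ * (v 1 * w 2 + v 4 * w 0)] := rfl

lemma fxSix_two (k₁ k₂ k₃ : F) (a b c : Fin 6 → F) :
    fxSix k₁ k₂ k₃ a (fxSix k₁ k₂ k₃ b c) = ![0, 0, 0, 0, 0,
      k₁ * (a 0 * (b 0 * c 1)) + k₂ * (a 0 * (b 1 * c 0)) + k₃ * (a 1 * (b 0 * c 0))] := by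
  ext i
  fin_cases i <;> simp [fxSix_apply]

lemma fxSix_assoc (k₁ k₂ k₃ : F) (a b c : Fin 6 → F) :
    fxSix k₁ k₂ k₃ (fxSix k₁ k₂ k₃ a b) c = fxSix k₁ k₂ k₃ a (fxSix k₁ k₂ k₃ b c) := by
  rw [fxSix_two]
  ext i
  fin_cases i <;> simp [fxSix_apply]
  ring

lemma exists_kernel (p₁ q₁ p₃ q₃ : F) (h : p₁ * q₃ - p₃ * q₁ = 0) :
    ∃ k l : F, (k ≠ 0 ∨ l ≠ 0) ∧ p₁ * k + q₁ * l = 0 ∧ p₃ * k + q₃ * l = 0 := by
  by_cases h1 : p₁ = 0 ∧ q₁ = 0
  · by_cases h3 : p₃ = 0 ∧ q₃ = 0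
    · exact ⟨1, 0, Or.inl one_ne_zero, by rw [h1.1, h1.2]; ring, by rw [h3.1, h3.2]; ring⟩
    · refine ⟨q₃, -p₃, ?_, by rw [h1.1, h1.2]; ring, by ring⟩
      by_contra h4
      rw [not_or, not_not, not_not, neg_eq_zero] at h4
      exact h3 ⟨h4.2, h4.1⟩
  · refine ⟨q₁, -p₁, ?_, by ring, by linear_combination -h⟩
    by_contra h4
    rw [not_or, not_not, not_not, neg_eq_zero] at h4
    exact h1 ⟨h4.2, h4.1⟩

theorem fp_not_van_four_quartic {x y : F} (h : x ^ 2 ≠ y ^ 2) (hQ : quartic x y = 0) :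
    ¬ Van ![x, y, 0, 0, 0, 0] 4 := by
  intro hv
  have h0 : x ^ 2 - y ^ 2 ≠ 0 := sub_ne_zero.mpr h
  have hV := fp_vanB (m := 3) hv
  have hD := fq_D h
  rw [hQ] at hD
  obtain ⟨α, hα⟩ : ∃ α, α = x / (x ^ 2 - y ^ 2) := ⟨_, rfl⟩
  obtain ⟨β, hβ⟩ : ∃ β, β = y / (x ^ 2 - y ^ 2) := ⟨_, rfl⟩
  rw [← hα, ← hβ] at hD
  have hD' := (mul_eq_zero.mp hD).resolve_right (pow_ne_zero 3 h0)
  obtain ⟨k₁, k₃, hk, e1, e3⟩ := exists_kernel _ _ _ _ hD'
  have r1 : x * α - y * β = 1 := by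
    rw [hα, hβ]
    field_simp
  have r2 : y * α - x * β = 0 := by
    rw [hα, hβ]
    field_simp
    ring
  -- the product
  obtain ⟨o, hoo⟩ : ∃ o, o = fxSix k₁ (-k₁ - k₃) k₃ := ⟨_, rfl⟩
  have ho : ∀ a b c, o (o a b) c = o a (o b c) := by rw [hoo]; exact fxSix_assoc _ _ _
  have hc : circ x y (α • o - β • o.flip) = o := by
    apply LinearMap.ext
    intro a
    apply LinearMap.ext
    intro b
    rw [circ_apply]
    simp only [LinearMap.sub_apply, LinearMap.smul_apply, LinearMap.flip_apply]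
    have e : x • (α • o a b - β • o b a) + y • (α • o b a - β • o a b)
        = (x * α - y * β) • o a b + (y * α - x * β) • o b a := by module
    rw [e, r1, r2, one_smul, zero_smul, add_zero]
  have hz : ∀ a b c, (α ^ 2 - α) • o a (o b c) - (α * β) • o b (o a c)
      - (α * β) • o c (o a b) + β ^ 2 • o c (o b a) + β • o b (o c a) = 0 := by
    intro a b c
    rw [hoo]
    simp only [fxSix_two]
    ext i
    fin_cases i <;> simp
    linear_combination (a 0 * b 0 * c 1 - a 0 * b 1 * c 0) * e1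
      + (a 1 * b 0 * c 0 - a 0 * b 1 * c 0) * e3
  have hall := hV (Fin 6 → F) (α • o - β • o.flip)
    (by
      intro a b w
      have f1 : x • (α • o - β • o.flip) a ((α • o - β • o.flip) b w)
          + y • (α • o - β • o.flip) a ((α • o - β • o.flip) w b)
          = (α • o - β • o.flip) a (circ x y (α • o - β • o.flip) b w) := by
        rw [circ_apply, map_add, map_smul, map_smul]
      rw [f1, hc]
      have z := hz a b w
      simp only [LinearMap.sub_apply, LinearMap.smul_apply, LinearMap.flip_apply, map_sub,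
        map_smul, ho]
      linear_combination (norm := module) z)
    (by rw [hc]; exact ho)
  -- all triple products of `o` vanish
  have hto : ∀ a b c, o a (o b c) = 0 := by
    intro a b c
    have f : ∀ p q r s t u : Fin 6 → F, True := fun _ _ _ _ _ _ => trivial
    rw [← hc, circ_apply]
    have g1 : ∀ a b c, (α • o - β • o.flip) a ((α • o - β • o.flip) b c) = 0 :=
      fun a b c => hall _ (IsProd.mul 1 2 _ _ (IsProd.one _)
        (IsProd.mul 1 1 _ _ (IsProd.one _) (IsProd.one _)))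
    have g2 : ∀ a b c, (α • o - β • o.flip) ((α • o - β • o.flip) b c) a = 0 :=
      fun a b c => hall _ (IsProd.mul 2 1 _ _
        (IsProd.mul 1 1 _ _ (IsProd.one _) (IsProd.one _)) (IsProd.one _))
    rw [circ_apply]
    simp only [map_add, map_smul, LinearMap.add_apply, LinearMap.smul_apply, g1, g2, smul_zero,
      add_zero]
  rcases hk with hk | hk
  · have t := congrFun (hto ![1, 0, 0, 0, 0, 0] ![1, 0, 0, 0, 0, 0] ![0, 1, 0, 0, 0, 0]) 5
    rw [hoo, fxSix_two] at t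
    simp at t
    exact hk t
  · have t := congrFun (hto ![0, 1, 0, 0, 0, 0] ![1, 0, 0, 0, 0, 0] ![1, 0, 0, 0, 0, 0]) 5
    rw [hoo, fxSix_two] at t
    simp at t
    exact hk t

end Pool.Agent.OPR
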