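import Pool.Agent.OPR.FirstDiag

/-!
# The point `(x, y) = (-1, 1)`: the relation `(ab)c = a(cb) - a(bc)`
-/

namespace Pool.Agent.OPR

variable {F : Type} [Field F]

section Words

variable {B : Type} [AddCommGroup B] [Module F B] {x y : F}

/-- `a₁(a₂(... (aₖ v)))`. -/
noncomputable def rnw (μ : B →ₗ[F] B →ₗ[F] B) : List B → (B →ₗ[F] B)
  | [] => LinearMap.id
  | a :: l => (μ a).comp (rnw μ l)

lemma rnw_append (μ : B →ₗ[F] B →ₗ[F] B) (l : List B) (p v : B) :
    rnw μ (l ++ [p]) v = rnw μ l (μ p v) := by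
  induction l with
  | nil => rfl
  | cons a l ih =>
    change μ a (rnw μ (l ++ [p]) v) = μ a (rnw μ l (μ p v))
    rw [ih]

/-- If all right-normed words of length `N + 1` vanish, then all products of `N + 1` elements
vanish. -/
lemma fp_words {μ : B →ₗ[F] B →ₗ[F] B}
    (h : ∀ a b w : B, μ (μ a b) w = x • μ a (μ b w) + y • μ a (μ w b)) (N : ℕ)
    (h0 : ∀ l : List B, l.length = N → ∀ v : B, rnw μ l v = 0) (u : B)
    (hu : IsProd μ (N + 1) u) : u = 0 := by
  have key : ∀ k : ℕ, ∀ l : List B, l.length + (k + 1) = N + 1 → ∀ u : B,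
      IsProd μ (k + 1) u → rnw μ l u = 0 := by
    intro k
    induction k with
    | zero =>
      intro l hl u _
      exact h0 l (by omega) u
    | succ k ih =>
      intro l hl u hu
      have key2 : ∀ n i j : ℕ, i ≤ n → i + j = k + 2 → ∀ p q : B, IsProd μ i p →
          IsProd μ j q → rnw μ l (μ p q) = 0 := by
        intro n
        induction n with
        | zero =>
          intro i j hi _ p q hp _
          have := isProd_pos hp
          omega
        | succ n ih2 =>
          intro i j hi hij p q hp hq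
          by_cases h1 : i = 1
          · subst h1
            have hj : j = k + 1 := by omega
            subst hj
            rw [← rnw_append]
            exact ih (l ++ [p]) (by rw [List.length_append, List.length_singleton]; omega) q hq
          · have hip := isProd_pos hp
            obtain ⟨i1, i2, p1, p2, h2, h3, h4, hp1, hp2, rfl⟩ := isProd_split hp (by omega)
            have h5 := ih2 i1 (i2 + j) (by omega) (by omega) p1 (μ p2 q) hp1
              (IsProd.mul _ _ _ _ hp2 hq)
            have h6 := ih2 i1 (j + i2) (by omega) (by omega) p1 (μ q p2) hp1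
              (IsProd.mul _ _ _ _ hq hp2)
            rw [h, map_add, map_smul, map_smul, h5, h6, smul_zero, smul_zero, add_zero]
      obtain ⟨i, j, p, q, hi, hj, hij, hp, hq, rfl⟩ := isProd_split hu (by omega)
      exact key2 i i j le_rfl hij p q hp hq
  exact key N [] (by simp) u hu

end Words

section Vanish

variable {B : Type} [AddCommGroup B] [Module F B] {μ : B →ₗ[F] B →ₗ[F] B}

/-- Right-normed words of length seven vanish. -/
theorem seven_zero [CharZero F]
    (h : ∀ a b w : B, μ (μ a b) w = (-1 : F) • μ a (μ b w) + (1 : F) • μ a (μ w b))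
    (ho : ∀ a b c : B, circ (-1 : F) 1 μ (circ (-1 : F) 1 μ a b) c
      = circ (-1 : F) 1 μ a (circ (-1 : F) 1 μ b c))
    (a b c d e f g : B) : μ a (μ b (μ c (μ d (μ e (μ f g))))) = 0 := by
  have e11 : (-(-1) : F) = 1 := neg_neg 1
  obtain ⟨k, -⟩ := op_rel (u := (-1 : F)) (μ := μ) (by norm_num) (by rw [e11]; exact h)
    (by rw [e11]; exact ho)
  have h' : ∀ a b w : B, μ (μ a b) w = μ a (μ w b) - μ a (μ b w) := by
    intro a b w
    rw [h]
    module
  -- `(ab) z = 0` for central `z`
  have hA : ∀ z : B, (∀ d, μ z d = μ d z) → ∀ a b, μ (μ a b) z = 0 := by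
    intro z hz a b
    rw [h', hz, sub_self]
  have hB : ∀ z : B, (∀ d, μ z d = μ d z) → ∀ c d, μ (μ c z) d = 0 := by
    intro z hz c d
    rw [h', hz, sub_self]
  have hC : ∀ z : B, (∀ d, μ z d = μ d z) → ∀ c d, ∀ e, μ (μ d (μ c z)) e
      = μ e (μ d (μ c z)) := by
    intro z hz c d e
    have h1 := k d (μ c z) e
    rw [hB z hz c d, LinearMap.map_zero, LinearMap.zero_apply, map_zero, sub_zero,
      sub_zero] at h1
    exact h1
  have hD : ∀ z : B, (∀ d, μ z d = μ d z) → ∀ a b c d, μ d (μ a (μ b (μ c z))) = 0 := by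
    intro z hz a b c d
    have h1 := hA _ (hC z hz c d) a b
    rw [← hC z hz c d, h', hB z hz, map_zero, sub_zero, h', hB z hz, map_zero, zero_sub,
      map_neg, neg_eq_zero] at h1
    exact h1
  have hz : ∀ p q : B, ∀ d, μ (μ p q - μ q p) d = μ d (μ p q - μ q p) := by
    intro p q d
    rw [map_sub, map_sub, LinearMap.sub_apply]
    exact k p q d
  have e1 : μ e (μ f g) = -μ f (μ g e - μ e g) - (μ (μ f g) e - μ e (μ f g)) := by
    rw [h', map_sub]
    abel
  rw [e1, map_sub, map_sub, map_sub, map_sub, map_neg, map_neg, map_neg, map_neg,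
    hD _ (hz g e), map_zero, hD _ (hz (μ f g) e), neg_zero, sub_zero]

end Vanish

theorem seven_van [CharZero F] : VanB (F := F) (-1) 1 7 := by
  intro B _ _ μ hμ ho u hu
  refine fp_words hμ 6 ?_ u hu
  intro l hl v
  obtain ⟨a, l, rfl⟩ : ∃ a l', l = a :: l' := by
    cases l with
    | nil => simp at hl
    | cons a l => exact ⟨a, l, rfl⟩
  obtain ⟨b, l, rfl⟩ : ∃ a l', l = a :: l' := by
    cases l with
    | nil => simp at hl
    | cons a l => exact ⟨a, l, rfl⟩
  obtain ⟨c, l, rfl⟩ : ∃ a l', l = a :: l' := by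
    cases l with
    | nil => simp at hl
    | cons a l => exact ⟨a, l, rfl⟩
  obtain ⟨d, l, rfl⟩ : ∃ a l', l = a :: l' := by
    cases l with
    | nil => simp at hl
    | cons a l => exact ⟨a, l, rfl⟩
  obtain ⟨e, l, rfl⟩ : ∃ a l', l = a :: l' := by
    cases l with
    | nil => simp at hl
    | cons a l => exact ⟨a, l, rfl⟩
  obtain ⟨f, l, rfl⟩ : ∃ a l', l = a :: l' := by
    cases l with
    | nil => simp at hl
    | cons a l => exact ⟨a, l, rfl⟩
  have hl' : l = [] := by
    simp only [List.length_cons] at hl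
    exact List.eq_nil_of_length_eq_zero (by omega)
  subst hl'
  change μ a (μ b (μ c (μ d (μ e (μ f v))))) = 0
  exact seven_zero hμ ho a b c d e f v

/-- The algebra with one generator `x₁`; `x₁ x_i = x_(i+1)`. -/
noncomputable def fxOne : (Fin 6 → F) →ₗ[F] (Fin 6 → F) →ₗ[F] (Fin 6 → F) :=
  LinearMap.mk₂ F (fun v w => ![0, v 0 * w 0, v 0 * w 1, v 0 * w 2 + v 2 * w 0 - v 1 * w 1,
      v 0 * w 3, v 0 * w 4 + v 4 * w 0 - v 1 * w 3])
    (by intro a b c; ext i; fin_cases i <;> simp <;> ring)
    (by intro r a b; ext i; fin_cases i <;> simp <;> ring)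
    (by intro a b c; ext i; fin_cases i <;> simp <;> ring)
    (by intro r a b; ext i; fin_cases i <;> simp <;> ring)

lemma fxOne_apply (v w : Fin 6 → F) :
    fxOne v w = ![0, v 0 * w 0, v 0 * w 1, v 0 * w 2 + v 2 * w 0 - v 1 * w 1,
      v 0 * w 3, v 0 * w 4 + v 4 * w 0 - v 1 * w 3] := rfl

theorem fp_not_van_seven : ¬ Van (F := F) ![-1, 1, 0, 0, 0, 0] 7 := by
  intro h
  have h1 := fp_vanB (m := 6) h (Fin 6 → F) fxOne
    (by
      intro a b w
      ext i
      fin_cases i <;> simp [fxOne_apply] <;> ring)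
    (by
      intro a b w
      ext i
      fin_cases i <;> simp [fxOne_apply, circ_apply] <;> ring)
    (fxOne ![1, 0, 0, 0, 0, 0] (fxOne ![1, 0, 0, 0, 0, 0] (fxOne ![1, 0, 0, 0, 0, 0]
      (fxOne ![1, 0, 0, 0, 0, 0] (fxOne ![1, 0, 0, 0, 0, 0] ![1, 0, 0, 0, 0, 0])))))
    (IsProd.mul 1 5 _ _ (IsProd.one _) (IsProd.mul 1 4 _ _ (IsProd.one _)
      (IsProd.mul 1 3 _ _ (IsProd.one _) (IsProd.mul 1 2 _ _ (IsProd.one _)
        (IsProd.mul 1 1 _ _ (IsProd.one _) (IsProd.one _))))))
  have h2 := congrFun h1 5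
  simp [fxOne_apply] at h2

end Pool.Agent.OPR
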