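import Pool.Agent.OPR.Base

/-!
# The plane `c_1 = c_2 = c_3 = c_4 = 0`: the relation `(ab)w = x w(ab) + y w(ba)`
-/

namespace Pool.Agent.OPR

variable {F : Type} [Field F] {A : Type} [AddCommGroup A] [Module F A]

lemma lp_sat_iff (x y : F) (μ : A →ₗ[F] A →ₗ[F] A) :
    Sat ![0, 0, 0, 0, x, y] μ ↔
      ∀ a b w : A, μ (μ a b) w = x • μ w (μ a b) + y • μ w (μ b a) := by
  unfold Sat
  constructor
  · intro h a b w
    have := h a b w
    simpa using this
  · intro h a b w
    simpa using h a b w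

/-- `u w = l w u` for all `w`. -/
def Eig (μ : A →ₗ[F] A →ₗ[F] A) (l : F) (u : A) : Prop := ∀ w : A, μ u w = l • μ w u

section Vanish

variable {x y : F} {μ : A →ₗ[F] A →ₗ[F] A}

lemma eig_add {l : F} {u v : A} (h1 : Eig μ l u) (h2 : Eig μ l v) : Eig μ l (u + v) := by
  intro w
  rw [map_add, LinearMap.add_apply, h1 w, h2 w, map_add, smul_add]

lemma eig_smul {l r : F} {u : A} (h1 : Eig μ l u) : Eig μ l (r • u) := by
  intro w
  rw [map_smul, LinearMap.smul_apply, h1 w, map_smul, smul_comm]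

lemma eig_sym (h : ∀ a b w : A, μ (μ a b) w = x • μ w (μ a b) + y • μ w (μ b a)) (a b : A) :
    Eig μ (x + y) (μ a b + μ b a) := by
  intro w
  rw [map_add, LinearMap.add_apply, h, h, map_add]
  module

lemma eig_alt (h : ∀ a b w : A, μ (μ a b) w = x • μ w (μ a b) + y • μ w (μ b a)) (a b : A) :
    Eig μ (x - y) (μ a b - μ b a) := by
  intro w
  rw [map_sub, LinearMap.sub_apply, h, h, map_sub]
  module

lemma eig_up (h : ∀ a b w : A, μ (μ a b) w = x • μ w (μ a b) + y • μ w (μ b a)) {l : F} {u : A}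
    (hu : Eig μ l u) (d : A) : Eig μ (x + y * l) (μ d u) := by
  intro w
  rw [h, hu d, map_smul]
  module

lemma eig_kill (h : ∀ a b w : A, μ (μ a b) w = x • μ w (μ a b) + y • μ w (μ b a)) {l : F} {u : A}
    (hu : Eig μ l u) (hy : y ≠ 0) (hl : l ^ 2 ≠ 1) (w d : A) : μ w (μ d u) = 0 := by
  have h1 := h d u w
  have h2 := h u d w
  rw [hu d, map_smul] at h1
  rw [hu d, map_smul, map_smul, LinearMap.smul_apply] at h2
  have h3 : (y * (l ^ 2 - 1)) • μ w (μ d u) = 0 := by
    linear_combination (norm := module) h2 - l • h1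
  rcases smul_eq_zero.mp h3 with h4 | h4
  · rcases mul_eq_zero.mp h4 with h5 | h5
    · exact absurd h5 hy
    · exact absurd (sub_eq_zero.mp h5) hl
  · exact h4

lemma eig_cross {l r : F} {u v : A} (hu : Eig μ l u) (hv : Eig μ r v) (h : l * r ≠ 1) :
    μ u v = 0 := by
  have h1 := hu v
  have h2 := hv u
  have h3 : (1 - l * r) • μ u v = 0 := by
    linear_combination (norm := module) h1 + l • h2
  rcases smul_eq_zero.mp h3 with h4 | h4
  · exact absurd (sub_eq_zero.mp h4).symm h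
  · exact h4

lemma half_split [CharZero F] (P : A → Prop) (hadd : ∀ u v, P u → P v → P (u + v))
    (hsmul : ∀ (r : F) u, P u → P (r • u)) (p q : A) (h1 : P (μ p q + μ q p))
    (h2 : P (μ p q - μ q p)) : P (μ p q) := by
  have h3 := hsmul (1 / 2 : F) _ (hadd _ _ h1 h2)
  have h4 : (1 / 2 : F) • ((μ p q + μ q p) + (μ p q - μ q p)) = μ p q := by
    have : (μ p q + μ q p) + (μ p q - μ q p) = (2 : F) • μ p q := by module
    rw [this, smul_smul]
    norm_num
  rwa [h4] at h3

/-- Right-normed four-fold products vanish. -/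
lemma chain_zero [CharZero F]
    (h : ∀ a b w : A, μ (μ a b) w = x • μ w (μ a b) + y • μ w (μ b a))
    (hy : y ≠ 0) (hp : (x + y) ^ 2 ≠ 1) (hm : (x - y) ^ 2 ≠ 1) (w d p q : A) :
    μ w (μ d (μ p q)) = 0 := by
  refine half_split (μ := μ) (F := F) (fun u => μ w (μ d u) = 0) ?_ ?_ p q ?_ ?_
  · intro u v hu hv
    simp only [map_add, hu, hv, add_zero]
  · intro r u hu
    simp only [map_smul, hu, smul_zero]
  · exact eig_kill h (eig_sym h p q) hy hp w d
  · exact eig_kill h (eig_alt h p q) hy hm w d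

lemma van_five_of_chain (h : ∀ a b w : A, μ (μ a b) w = x • μ w (μ a b) + y • μ w (μ b a))
    (hc : ∀ w d p q : A, μ w (μ d (μ p q)) = 0) :
    (∀ w a : A, IsProd μ 3 a → μ w a = 0) ∧ (∀ w a : A, IsProd μ 3 a → μ a w = 0) := by
  have h1 : ∀ w a : A, IsProd μ 3 a → μ w a = 0 := by
    intro w a ha
    obtain ⟨i, j, u, v, hi, hj, hij, hu, hv, rfl⟩ := isProd_split ha (by norm_num)
    have h5 : i = 1 ∧ j = 2 ∨ i = 2 ∧ j = 1 := by omega
    rcases h5 with ⟨rfl, rfl⟩ | ⟨rfl, rfl⟩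
    · obtain ⟨i', j', p, q, -, -, -, -, -, rfl⟩ := isProd_split hv (by norm_num)
      exact hc _ _ _ _
    · obtain ⟨i', j', p, q, -, -, -, -, -, rfl⟩ := isProd_split hu (by norm_num)
      rw [h p q v, map_add, map_smul, map_smul, hc, hc, smul_zero, smul_zero, add_zero]
  refine ⟨h1, ?_⟩
  intro w a ha
  obtain ⟨i, j, u, v, hi, hj, hij, hu, hv, rfl⟩ := isProd_split ha (by norm_num)
  have h6 : IsProd μ 3 (μ v u) := by
    have := IsProd.mul j i v u hv hu
    rwa [show j + i = 3 by omega] at this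
  rw [h u v w, h1 w _ ha, h1 w _ h6, smul_zero, smul_zero, add_zero]

end Vanish

theorem lp_van_four [CharZero F] {x y : F} (hy : y ≠ 0) (hp : (x + y) ^ 2 ≠ 1)
    (hm : (x - y) ^ 2 ≠ 1) (hpm : x ^ 2 - y ^ 2 ≠ 1) : Van ![0, 0, 0, 0, x, y] 4 := by
  intro A _ _ μ hμ a ha
  rw [lp_sat_iff] at hμ
  obtain ⟨h1, h2⟩ := van_five_of_chain hμ (chain_zero hμ hy hp hm)
  obtain ⟨i, j, u, v, hi, hj, hij, hu, hv, rfl⟩ := isProd_split ha (by norm_num)
  have h5 : i = 1 ∧ j = 3 ∨ i = 2 ∧ j = 2 ∨ i = 3 ∧ j = 1 := by omega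
  rcases h5 with ⟨rfl, rfl⟩ | ⟨rfl, rfl⟩ | ⟨rfl, rfl⟩
  · exact h1 _ _ hv
  · obtain ⟨i', j', p, q, -, -, -, -, -, rfl⟩ := isProd_split hu (by norm_num)
    obtain ⟨i', j', r, s, -, -, -, -, -, rfl⟩ := isProd_split hv (by norm_num)
    have e1 : (x + y) * (x - y) ≠ 1 := fun h => hpm (by linear_combination h)
    have e2 : (x - y) * (x + y) ≠ 1 := fun h => hpm (by linear_combination h)
    have e3 : (x + y) * (x + y) ≠ 1 := fun h => hp (by linear_combination h)
    have e4 : (x - y) * (x - y) ≠ 1 := fun h => hm (by linear_combination h)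
    refine half_split (μ := μ) (F := F) (fun u => μ u (μ r s) = 0) ?_ ?_ p q ?_ ?_
    · intro u v hu hv
      simp only [map_add, LinearMap.add_apply, hu, hv, add_zero]
    · intro t u hu
      simp only [map_smul, LinearMap.smul_apply, hu, smul_zero]
    · refine half_split (μ := μ) (F := F) (fun u => μ (μ p q + μ q p) u = 0) ?_ ?_ r s ?_ ?_
      · intro u v hu hv
        beta_reduce at hu hv ⊢
        rw [map_add, hu, hv, add_zero]
      · intro t u hu
        beta_reduce at hu ⊢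
        rw [map_smul, hu, smul_zero]
      · exact eig_cross (eig_sym hμ p q) (eig_sym hμ r s) e3
      · exact eig_cross (eig_sym hμ p q) (eig_alt hμ r s) e1
    · refine half_split (μ := μ) (F := F) (fun u => μ (μ p q - μ q p) u = 0) ?_ ?_ r s ?_ ?_
      · intro u v hu hv
        beta_reduce at hu hv ⊢
        rw [map_add, hu, hv, add_zero]
      · intro t u hu
        beta_reduce at hu ⊢
        rw [map_smul, hu, smul_zero]
      · exact eig_cross (eig_alt hμ p q) (eig_sym hμ r s) e2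
      · exact eig_cross (eig_alt hμ p q) (eig_alt hμ r s) e4
  · exact h2 _ _ hu

theorem lp_van_five [CharZero F] {x y : F} (hy : y ≠ 0) (hp : (x + y) ^ 2 ≠ 1)
    (hm : (x - y) ^ 2 ≠ 1) : Van ![0, 0, 0, 0, x, y] 5 := by
  intro A _ _ μ hμ a ha
  rw [lp_sat_iff] at hμ
  obtain ⟨h1, h2⟩ := van_five_of_chain hμ (chain_zero hμ hy hp hm)
  obtain ⟨i, j, u, v, hi, hj, hij, hu, hv, rfl⟩ := isProd_split ha (by norm_num)
  by_cases h3 : 3 ≤ i
  · refine h2 _ _ ?_
    clear ha
    have h4 : i = 3 ∨ i = 4 := by omega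
    rcases h4 with rfl | rfl
    · exact hu
    · exact isProd_pred hu (by norm_num)
  · refine h1 _ _ ?_
    have h4 : j = 3 ∨ j = 4 := by omega
    rcases h4 with rfl | rfl
    · exact hv
    · exact isProd_pred hv (by norm_num)

end Pool.Agent.OPR
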