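import Pool.Agent.OPR.LastPlane

/-!
# Examples for the plane `c_1 = c_2 = c_3 = c_4 = 0`
-/

namespace Pool.Agent.OPR

open Matrix

variable {F : Type} [Field F]

/-- `g g = h`, `g h = k`, `h g = t k`. -/
noncomputable def exThree (t : F) : (Fin 3 → F) →ₗ[F] (Fin 3 → F) →ₗ[F] (Fin 3 → F) :=
  LinearMap.mk₂ F (fun v w => ![0, v 0 * w 0, v 0 * w 1 + t * (v 1 * w 0)])
    (by intro a b c; ext i; fin_cases i <;> simp <;> ring)
    (by intro r a b; ext i; fin_cases i <;> simp <;> ring)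
    (by intro a b c; ext i; fin_cases i <;> simp <;> ring)
    (by intro r a b; ext i; fin_cases i <;> simp <;> ring)

lemma exThree_apply (t : F) (v w : Fin 3 → F) :
    exThree t v w = ![0, v 0 * w 0, v 0 * w 1 + t * (v 1 * w 0)] := rfl

theorem lp_not_van_three (x y : F) : ¬ Van ![0, 0, 0, 0, x, y] 3 := by
  intro h
  have h1 := h _ (exThree (x + y))
    (by
      rw [lp_sat_iff]
      intro a b w
      ext i
      fin_cases i <;> simp [exThree_apply] <;> ring)
    (exThree (x + y) ![1, 0, 0] (exThree (x + y) ![1, 0, 0] ![1, 0, 0]))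
    (IsProd.mul 1 2 _ _ (IsProd.one _) (IsProd.mul 1 1 _ _ (IsProd.one _) (IsProd.one _)))
  have h2 := congrFun h1 2
  simp [exThree_apply] at h2

/-- `g g = h₁`, `a b = h₂`, `b a = -h₂`, `h₁ h₂ = p`, `h₂ h₁ = t p`. -/
noncomputable def exFour (t : F) : (Fin 6 → F) →ₗ[F] (Fin 6 → F) →ₗ[F] (Fin 6 → F) :=
  LinearMap.mk₂ F (fun v w => ![0, 0, 0, v 0 * w 0, v 1 * w 2 - v 2 * w 1,
      v 3 * w 4 + t * (v 4 * w 3)])
    (by intro a b c; ext i; fin_cases i <;> simp <;> ring)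
    (by intro r a b; ext i; fin_cases i <;> simp <;> ring)
    (by intro a b c; ext i; fin_cases i <;> simp <;> ring)
    (by intro r a b; ext i; fin_cases i <;> simp <;> ring)

lemma exFour_apply (t : F) (v w : Fin 6 → F) :
    exFour t v w = ![0, 0, 0, v 0 * w 0, v 1 * w 2 - v 2 * w 1,
      v 3 * w 4 + t * (v 4 * w 3)] := rfl

theorem lp_not_van_four {x y : F} (hxy : x ^ 2 - y ^ 2 = 1) : ¬ Van ![0, 0, 0, 0, x, y] 4 := by
  intro h
  have h1 := h _ (exFour (x - y))
    (by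
      rw [lp_sat_iff]
      intro a b w
      ext i
      fin_cases i <;> simp [exFour_apply]
      linear_combination (-(a 0 * b 0 * w 4)) * hxy)
    (exFour (x - y) (exFour (x - y) ![1, 0, 0, 0, 0, 0] ![1, 0, 0, 0, 0, 0])
      (exFour (x - y) ![0, 1, 0, 0, 0, 0] ![0, 0, 1, 0, 0, 0]))
    (IsProd.mul 2 2 _ _ (IsProd.mul 1 1 _ _ (IsProd.one _) (IsProd.one _))
      (IsProd.mul 1 1 _ _ (IsProd.one _) (IsProd.one _)))
  have h2 := congrFun h1 5
  simp [exFour_apply] at h2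

/-- `g₁ g₁ = h₁`, `g₂ g₂ = h₂`, `h₁ h₂ = p = -h₂ h₁`, `g₁ p = s`, `p g₁ = t s`. -/
noncomputable def exFiveA (t : F) : (Fin 6 → F) →ₗ[F] (Fin 6 → F) →ₗ[F] (Fin 6 → F) :=
  LinearMap.mk₂ F (fun v w => ![0, 0, v 0 * w 0, v 1 * w 1, v 2 * w 3 - v 3 * w 2,
      v 0 * w 4 + t * (v 4 * w 0)])
    (by intro a b c; ext i; fin_cases i <;> simp <;> ring)
    (by intro r a b; ext i; fin_cases i <;> simp <;> ring)
    (by intro a b c; ext i; fin_cases i <;> simp <;> ring)
    (by intro r a b; ext i; fin_cases i <;> simp <;> ring)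

lemma exFiveA_apply (t : F) (v w : Fin 6 → F) :
    exFiveA t v w = ![0, 0, v 0 * w 0, v 1 * w 1, v 2 * w 3 - v 3 * w 2,
      v 0 * w 4 + t * (v 4 * w 0)] := rfl

theorem lp_not_van_five_a {x y : F} (hxy : x + y = -1) : ¬ Van ![0, 0, 0, 0, x, y] 5 := by
  intro h
  have h1 := h _ (exFiveA (x - y))
    (by
      rw [lp_sat_iff]
      intro a b w
      ext i
      fin_cases i <;> simp [exFiveA_apply]
      · linear_combination (a 0 * b 0 * w 3 - a 1 * b 1 * w 2) * hxy
      · ring)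
    (exFiveA (x - y) ![1, 0, 0, 0, 0, 0]
      (exFiveA (x - y) (exFiveA (x - y) ![1, 0, 0, 0, 0, 0] ![1, 0, 0, 0, 0, 0])
        (exFiveA (x - y) ![0, 1, 0, 0, 0, 0] ![0, 1, 0, 0, 0, 0])))
    (IsProd.mul 1 4 _ _ (IsProd.one _)
      (IsProd.mul 2 2 _ _ (IsProd.mul 1 1 _ _ (IsProd.one _) (IsProd.one _))
      (IsProd.mul 1 1 _ _ (IsProd.one _) (IsProd.one _))))
  have h2 := congrFun h1 5
  simp [exFiveA_apply] at h2

/-- `a b = h = -b a`, `h h = p`, `a p = s`, `p a = t s`. -/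
noncomputable def exFiveB (t : F) : (Fin 5 → F) →ₗ[F] (Fin 5 → F) →ₗ[F] (Fin 5 → F) :=
  LinearMap.mk₂ F (fun v w => ![0, 0, v 0 * w 1 - v 1 * w 0, v 2 * w 2,
      v 0 * w 3 + t * (v 3 * w 0)])
    (by intro a b c; ext i; fin_cases i <;> simp <;> ring)
    (by intro r a b; ext i; fin_cases i <;> simp <;> ring)
    (by intro a b c; ext i; fin_cases i <;> simp <;> ring)
    (by intro r a b; ext i; fin_cases i <;> simp <;> ring)

lemma exFiveB_apply (t : F) (v w : Fin 5 → F) :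
    exFiveB t v w = ![0, 0, v 0 * w 1 - v 1 * w 0, v 2 * w 2,
      v 0 * w 3 + t * (v 3 * w 0)] := rfl

theorem lp_not_van_five_b {x y : F} (hxy : x - y = 1) : ¬ Van ![0, 0, 0, 0, x, y] 5 := by
  intro h
  have h1 := h _ (exFiveB (x + y))
    (by
      rw [lp_sat_iff]
      intro a b w
      ext i
      fin_cases i <;> simp [exFiveB_apply]
      · linear_combination (-((a 0 * b 1 - a 1 * b 0) * w 2)) * hxy
      · ring)
    (exFiveB (x + y) ![1, 0, 0, 0, 0]
      (exFiveB (x + y) (exFiveB (x + y) ![1, 0, 0, 0, 0] ![0, 1, 0, 0, 0])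
        (exFiveB (x + y) ![1, 0, 0, 0, 0] ![0, 1, 0, 0, 0])))
    (IsProd.mul 1 4 _ _ (IsProd.one _)
      (IsProd.mul 2 2 _ _ (IsProd.mul 1 1 _ _ (IsProd.one _) (IsProd.one _))
      (IsProd.mul 1 1 _ _ (IsProd.one _) (IsProd.one _))))
  have h2 := congrFun h1 4
  simp [exFiveB_apply] at h2

/-- `g v = v`, `v g = t v`. -/
noncomputable def exTwo (t : F) : (Fin 2 → F) →ₗ[F] (Fin 2 → F) →ₗ[F] (Fin 2 → F) :=
  LinearMap.mk₂ F (fun v w => ![0, v 0 * w 1 + t * (v 1 * w 0)])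
    (by intro a b c; ext i; fin_cases i <;> simp <;> ring)
    (by intro r a b; ext i; fin_cases i <;> simp <;> ring)
    (by intro a b c; ext i; fin_cases i <;> simp <;> ring)
    (by intro r a b; ext i; fin_cases i <;> simp <;> ring)

lemma exTwo_apply (t : F) (v w : Fin 2 → F) :
    exTwo t v w = ![0, v 0 * w 1 + t * (v 1 * w 0)] := rfl

lemma exTwo_prod (t : F) (n : ℕ) (hn : 1 ≤ n) : IsProd (exTwo t) n ![0, 1] := by
  induction n, hn using Nat.le_induction with
  | base => exact IsProd.one _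
  | succ k hk ih =>
    have h := IsProd.mul 1 k ![1, 0] ![0, 1] (IsProd.one _) ih
    have e : exTwo t ![1, 0] ![0, 1] = ![0, 1] := by
      rw [exTwo_apply]
      simp
    rwa [e, add_comm] at h

theorem lp_not_van_two {x y t : F} (h1 : t = x + y * t) (h2 : t ^ 2 = x * t + y) (n : ℕ)
    (hn : 1 ≤ n) : ¬ Van ![0, 0, 0, 0, x, y] n := by
  intro h
  have h3 := h _ (exTwo t)
    (by
      rw [lp_sat_iff]
      intro a b w
      ext i
      fin_cases i <;> simp [exTwo_apply]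
      linear_combination (a 0 * b 1 * w 0) * h1 + (a 1 * b 0 * w 0) * h2)
    _ (exTwo_prod t n hn)
  have h4 := congrFun h3 1
  simp at h4

lemma mul_prod (n : ℕ) (hn : 1 ≤ n) : IsProd (LinearMap.mul F F) n (1 : F) := by
  induction n, hn using Nat.le_induction with
  | base => exact IsProd.one _
  | succ k hk ih =>
    have h2 := IsProd.mul 1 k (1 : F) (1 : F) (IsProd.one _) ih
    rwa [LinearMap.mul_apply', mul_one, add_comm] at h2

theorem lp_not_van_comm {x y : F} (hxy : x + y = 1) (n : ℕ) (hn : 1 ≤ n) :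
    ¬ Van ![0, 0, 0, 0, x, y] n := by
  intro h
  have h3 := h F (LinearMap.mul F F)
    (by
      rw [lp_sat_iff]
      intro a b w
      simp only [LinearMap.mul_apply', smul_eq_mul]
      linear_combination (-(a * b * w)) * hxy) 1 (mul_prod n hn)
  exact one_ne_zero h3

/-- `g v = w = v g`, `g w = v = -w g`. -/
noncomputable def exPer : (Fin 3 → F) →ₗ[F] (Fin 3 → F) →ₗ[F] (Fin 3 → F) :=
  LinearMap.mk₂ F (fun v w => ![0, v 0 * w 2 - v 2 * w 0, v 0 * w 1 + v 1 * w 0])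
    (by intro a b c; ext i; fin_cases i <;> simp <;> ring)
    (by intro r a b; ext i; fin_cases i <;> simp <;> ring)
    (by intro a b c; ext i; fin_cases i <;> simp <;> ring)
    (by intro r a b; ext i; fin_cases i <;> simp <;> ring)

lemma exPer_apply (v w : Fin 3 → F) :
    exPer v w = ![0, v 0 * w 2 - v 2 * w 0, v 0 * w 1 + v 1 * w 0] := rfl

lemma exPer_prod (n : ℕ) (hn : 1 ≤ n) :
    IsProd (exPer (F := F)) n ![0, 1, 0] ∧ IsProd (exPer (F := F)) n ![0, 0, 1] := by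
  induction n, hn using Nat.le_induction with
  | base => exact ⟨IsProd.one _, IsProd.one _⟩
  | succ k hk ih =>
    have e1 : exPer (F := F) ![1, 0, 0] ![0, 0, 1] = ![0, 1, 0] := by
      rw [exPer_apply]
      simp
    have e2 : exPer (F := F) ![1, 0, 0] ![0, 1, 0] = ![0, 0, 1] := by
      rw [exPer_apply]
      simp
    have h1 := IsProd.mul 1 k ![1, 0, 0] _ (IsProd.one _) ih.2
    have h2 := IsProd.mul 1 k ![1, 0, 0] _ (IsProd.one _) ih.1
    rw [e1, add_comm] at h1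
    rw [e2, add_comm] at h2
    exact ⟨h1, h2⟩

theorem lp_not_van_per (n : ℕ) (hn : 1 ≤ n) : ¬ Van (F := F) ![0, 0, 0, 0, 0, -1] n := by
  intro h
  have h1 := h _ exPer
    (by
      rw [lp_sat_iff]
      intro a b w
      ext i
      fin_cases i <;> simp [exPer_apply] <;> ring)
    _ (exPer_prod n hn).1
  have h2 := congrFun h1 1
  simp at h2

end Pool.Agent.OPR
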