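import Pool.Agent.OPR.LastPlane

/-!
# The lines `x + y = -1` and `x - y = 1` of the plane `c_1 = c_2 = c_3 = c_4 = 0`
-/

namespace Pool.Agent.OPR

variable {F : Type} [Field F] {A : Type} [AddCommGroup A] [Module F A]

section Vanish

variable {x y : F} {μ : A →ₗ[F] A →ₗ[F] A}

lemma eig_of_zero {l : F} {u : A} (h1 : ∀ w, μ w u = 0) (h2 : ∀ w, μ u w = 0) : Eig μ l u := by
  intro w
  rw [h1, h2, smul_zero]

/-- If all products `μ d (μ p q)` have the eigenvalue `l`, then all products of three elements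
have it. -/
lemma three_eig (h : ∀ a b w : A, μ (μ a b) w = x • μ w (μ a b) + y • μ w (μ b a)) {l : F}
    (hl : ∀ d p q : A, Eig μ l (μ d (μ p q))) (a : A) (ha : IsProd μ 3 a) : Eig μ l a := by
  obtain ⟨i, j, u, v, hi, hj, hij, hu, hv, rfl⟩ := isProd_split ha (by norm_num)
  have h5 : i = 1 ∧ j = 2 ∨ i = 2 ∧ j = 1 := by omega
  rcases h5 with ⟨rfl, rfl⟩ | ⟨rfl, rfl⟩
  · obtain ⟨i', j', p, q, -, -, -, -, -, rfl⟩ := isProd_split hv (by norm_num)
    exact hl _ _ _
  · obtain ⟨i', j', p, q, -, -, -, -, -, rfl⟩ := isProd_split hu (by norm_num)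
    rw [h p q v]
    exact eig_add (eig_smul (hl _ _ _)) (eig_smul (hl _ _ _))

lemma isProd_three {n : ℕ} {a : A} (h : IsProd μ n a) (hn : 3 ≤ n) : IsProd μ 3 a := by
  induction n, hn using Nat.le_induction with
  | base => exact h
  | succ k hk ih => exact ih (isProd_pred h (by omega))

lemma six_zero [CharZero F]
    (h : ∀ a b w : A, μ (μ a b) w = x • μ w (μ a b) + y • μ w (μ b a)) {l : F} (hy : y ≠ 0)
    (hl1 : l ^ 2 ≠ 1) (hl : ∀ d p q : A, Eig μ l (μ d (μ p q))) (hp : l * (x + y) ≠ 1)
    (hm : l * (x - y) ≠ 1) (a : A) (ha : IsProd μ 6 a) : a = 0 := by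
  have h3 := three_eig h hl
  -- a product `μ w z`, `z` a product of five elements
  have k1 : ∀ w z : A, IsProd μ 5 z → μ w z = 0 := by
    intro w z hz
    obtain ⟨i, j, u, v, hi, hj, hij, hu, hv, rfl⟩ := isProd_split hz (by norm_num)
    by_cases hj3 : 3 ≤ j
    · exact eig_kill h (h3 v (isProd_three hv hj3)) hy hl1 w u
    · have hi3 : 3 ≤ i := by omega
      have h4 := h3 u (isProd_three hu hi3)
      rw [h4 v, map_smul, eig_kill h h4 hy hl1 w v, smul_zero]
  have k2 : ∀ g p q : A, IsProd μ 3 g → μ g (μ p q) = 0 := by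
    intro g p q hg
    refine half_split (μ := μ) (F := F) (fun u => μ g u = 0) ?_ ?_ p q ?_ ?_
    · intro u v hu hv
      beta_reduce at hu hv ⊢
      rw [map_add, hu, hv, add_zero]
    · intro t u hu
      beta_reduce at hu ⊢
      rw [map_smul, hu, smul_zero]
    · exact eig_cross (h3 g hg) (eig_sym h p q) hp
    · exact eig_cross (h3 g hg) (eig_alt h p q) hm
  have k3 : ∀ g p q : A, IsProd μ 3 g → μ (μ p q) g = 0 := by
    intro g p q hg
    rw [h p q g, k2 g p q hg, k2 g q p hg, smul_zero, smul_zero, add_zero]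
  obtain ⟨i, j, u, v, hi, hj, hij, hu, hv, rfl⟩ := isProd_split ha (by norm_num)
  by_cases h1 : i = 1
  · subst h1
    have : j = 5 := by omega
    subst this
    exact k1 _ _ hv
  · by_cases h2 : j = 1
    · subst h2
      have : i = 5 := by omega
      subst this
      have h4 := h3 u (isProd_three hu (by norm_num))
      rw [h4 v, k1 v u hu, smul_zero]
    · by_cases h5 : 3 ≤ i
      · obtain ⟨i', j', p, q, -, -, -, -, -, rfl⟩ := isProd_split hv (by omega)
        exact k2 _ _ _ (isProd_three hu h5)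
      · obtain ⟨i', j', p, q, -, -, -, -, -, rfl⟩ := isProd_split hu (by omega)
        exact k3 _ _ _ (isProd_three hv (by omega))

end Vanish

theorem lp_van_six_a [CharZero F] {x y : F} (hy : y ≠ 0) (hx : x ≠ 0) (hp : x + y = -1) :
    Van ![0, 0, 0, 0, x, y] 6 := by
  intro A _ _ μ hμ a ha
  rw [lp_sat_iff] at hμ
  have e1 : x = -1 - y := by linear_combination hp
  have hm : (x - y) ^ 2 ≠ 1 := by
    intro h
    have h1 : x * y = 0 := by
      have h2 : (x - y) ^ 2 = (x + y) ^ 2 - 4 * (x * y) := by ring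
      rw [h, hp] at h2
      have h3 : (4 : F) * (x * y) = 0 := by linear_combination h2
      exact (mul_eq_zero.mp h3).resolve_left (by norm_num)
    rcases mul_eq_zero.mp h1 with h2 | h2
    · exact hx h2
    · exact hy h2
  refine six_zero hμ (l := x - y) hy hm ?_ ?_ ?_ a ha
  · intro d p q
    refine half_split (μ := μ) (F := F) (fun u => Eig μ (x - y) (μ d u)) ?_ ?_ p q ?_ ?_
    · intro u v hu hv
      beta_reduce at hu hv ⊢
      rw [map_add]
      exact eig_add hu hv
    · intro t u hu
      beta_reduce at hu ⊢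
      rw [map_smul]
      exact eig_smul hu
    · have h1 := eig_up hμ (eig_sym hμ p q) d
      rwa [show x + y * (x + y) = x - y by rw [hp]; ring] at h1
    · have h1 : ∀ w, μ w (μ d (μ p q - μ q p)) = 0 :=
        fun w => eig_kill hμ (eig_alt hμ p q) hy hm w d
      have h2 := eig_up hμ (eig_alt hμ p q) d
      refine eig_of_zero h1 ?_
      intro w
      rw [h2 w, h1, smul_zero]
  · intro h
    rw [hp] at h
    exact hm (by linear_combination (-(x - y) + 1) * h)
  · intro h
    exact hm (by linear_combination h)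

theorem lp_van_six_b [CharZero F] {x y : F} (hy : y ≠ 0) (hx : x ≠ 0) (hp : x - y = 1) :
    Van ![0, 0, 0, 0, x, y] 6 := by
  intro A _ _ μ hμ a ha
  rw [lp_sat_iff] at hμ
  have hm : (x + y) ^ 2 ≠ 1 := by
    intro h
    have h1 : x * y = 0 := by
      have h2 : (x + y) ^ 2 = (x - y) ^ 2 + 4 * (x * y) := by ring
      rw [h, hp] at h2
      have h3 : (4 : F) * (x * y) = 0 := by linear_combination -h2
      exact (mul_eq_zero.mp h3).resolve_left (by norm_num)
    rcases mul_eq_zero.mp h1 with h2 | h2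
    · exact hx h2
    · exact hy h2
  refine six_zero hμ (l := x + y) hy hm ?_ ?_ ?_ a ha
  · intro d p q
    refine half_split (μ := μ) (F := F) (fun u => Eig μ (x + y) (μ d u)) ?_ ?_ p q ?_ ?_
    · intro u v hu hv
      beta_reduce at hu hv ⊢
      rw [map_add]
      exact eig_add hu hv
    · intro t u hu
      beta_reduce at hu ⊢
      rw [map_smul]
      exact eig_smul hu
    · have h1 : ∀ w, μ w (μ d (μ p q + μ q p)) = 0 :=
        fun w => eig_kill hμ (eig_sym hμ p q) hy hm w d
      have h2 := eig_up hμ (eig_sym hμ p q) d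
      refine eig_of_zero h1 ?_
      intro w
      rw [h2 w, h1, smul_zero]
    · have h1 := eig_up hμ (eig_alt hμ p q) d
      rwa [show x + y * (x - y) = x + y by rw [hp]; ring] at h1
  · intro h
    exact hm (by linear_combination h)
  · intro h
    rw [hp] at h
    exact hm (by linear_combination ((x + y) + 1) * h)

end Pool.Agent.OPR
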